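import Mathlib

open Filter Topology Finset

namespace Pool.Agent.Q204.NNM

/-- Pigeonhole into cells: bounded features, bilinear kernel nearly constant on a product cell
containing a fixed proportion of a given set of pairs. -/
theorem cell (d : ℕ) (T C s : ℝ) (hT : 0 < T) (hC : 0 ≤ C) (hs : 0 < s) :
    ∃ N : ℕ, 0 < N ∧ ∀ {I J Λ : Type} [Fintype I] [Fintype J] [Fintype Λ] [DecidableEq I]
      [DecidableEq J] [DecidableEq Λ]
      (_ : Fintype.card Λ ≤ d) (w : Λ → ℝ) (x : Λ → I → ℝ) (y : Λ → J → ℝ)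
      (_ : ∀ l, |w l| ≤ C) (G : Finset I) (H : Finset J)
      (_ : ∀ l, ∀ i ∈ G, |x l i| ≤ T) (_ : ∀ l, ∀ j ∈ H, |y l j| ≤ T)
      (S : Finset (I × J)) (_ : ∀ p ∈ S, p.1 ∈ G ∧ p.2 ∈ H),
      ∃ R ⊆ G, ∃ Q ⊆ H, (S.card : ℝ) ≤ N * ((S ∩ (R ×ˢ Q)).card : ℝ) ∧
        ∀ i ∈ R, ∀ j ∈ Q, ∀ i' ∈ R, ∀ j' ∈ Q,
          |∑ l, w l * x l i * y l j - ∑ l, w l * x l i' * y l j'| ≤ s := by
  classical
  set h : ℝ := s / (2 * T * (C + 1) * (d + 1)) with hh
  have hhpos : 0 < h := by positivity
  set M : ℤ := ⌈T / h⌉ + 1 with hM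
  set c : ℕ := (Finset.Icc (-M) M).card with hc
  have hMpos : 0 < M := by
    have : 0 < ⌈T / h⌉ := Int.ceil_pos.2 (by positivity)
    omega
  have hcpos : 0 < c := by
    rw [hc, Finset.card_pos]
    exact ⟨0, Finset.mem_Icc.2 ⟨by omega, by omega⟩⟩
  refine ⟨c ^ d * c ^ d, by positivity, ?_⟩
  intro I J Λ _ _ _ _ _ _ hcard w x y hw G H hx hy S hS
  have key : ∀ t : ℝ, |t| ≤ T → ⌊t / h⌋ ∈ Finset.Icc (-M) M := by
    intro t ht
    rw [abs_le] at ht
    rw [Finset.mem_Icc]
    constructor
    · rw [Int.le_floor]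
      push_cast
      have h1 : T / h ≤ ⌈T / h⌉ := Int.le_ceil _
      have h2 : -(T / h) ≤ t / h := by
        rw [← neg_div]; exact div_le_div_of_nonneg_right ht.1 hhpos.le
      rw [hM]; push_cast; linarith
    · have h1 : T / h ≤ ⌈T / h⌉ := Int.le_ceil _
      have h2 : t / h ≤ T / h := div_le_div_of_nonneg_right ht.2 hhpos.le
      have h3 : (⌊t / h⌋ : ℝ) ≤ t / h := Int.floor_le _
      have h4 : (⌊t / h⌋ : ℝ) ≤ ((⌈T / h⌉ : ℤ) : ℝ) := by linarith
      have h5 : ⌊t / h⌋ ≤ ⌈T / h⌉ := by exact_mod_cast h4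
      rw [hM]; omega
  set fx : I → Λ → ℤ := fun i l => ⌊x l i / h⌋ with hfx
  set fy : J → Λ → ℤ := fun j l => ⌊y l j / h⌋ with hfy
  set cells : Finset (Λ → ℤ) := Fintype.piFinset fun _ => Finset.Icc (-M) M with hcells
  have hcellcard : cells.card ≤ c ^ d := by
    rw [hcells, Fintype.card_piFinset, Finset.prod_const, Finset.card_univ]
    exact Nat.pow_le_pow_right hcpos hcard
  -- pigeonhole
  have hmaps : ∀ p ∈ S, (fx p.1, fy p.2) ∈ cells ×ˢ cells := by
    intro p hp
    obtain ⟨h1, h2⟩ := hS p hp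
    rw [Finset.mem_product]
    constructor
    · rw [hcells, Fintype.mem_piFinset]; intro l; exact key _ (hx l _ h1)
    · rw [hcells, Fintype.mem_piFinset]; intro l; exact key _ (hy l _ h2)
  have hcne : (cells ×ˢ cells).Nonempty := by
    rw [Finset.nonempty_product]
    have : cells.Nonempty := by
      refine ⟨fun _ => 0, ?_⟩
      rw [hcells, Fintype.mem_piFinset]
      intro l
      exact Finset.mem_Icc.2 ⟨by omega, by omega⟩
    exact ⟨this, this⟩
  obtain ⟨q, hq, hqc⟩ : ∃ q ∈ cells ×ˢ cells,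
      (S.card : ℝ) ≤ ((cells ×ˢ cells).card : ℝ) *
        ((S.filter fun p => (fx p.1, fy p.2) = q).card : ℝ) := by
    by_contra hcon
    push Not at hcon
    have hsum := Finset.card_eq_sum_card_fiberwise (f := fun p : I × J => (fx p.1, fy p.2))
      (s := S) (t := cells ×ˢ cells) (by intro p hp; exact hmaps p hp)
    have hcp : (0 : ℝ) < ((cells ×ˢ cells).card : ℝ) := by
      exact_mod_cast Finset.card_pos.2 hcne
    have hlt : ∑ q ∈ cells ×ˢ cells, ((S.filter fun p => (fx p.1, fy p.2) = q).card : ℝ)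
        < ∑ q ∈ cells ×ˢ cells, (S.card : ℝ) / ((cells ×ˢ cells).card : ℝ) := by
      refine Finset.sum_lt_sum_of_nonempty hcne fun q hq => ?_
      rw [lt_div_iff₀ hcp, mul_comm]
      exact hcon q hq
    rw [Finset.sum_const, nsmul_eq_mul, mul_div_cancel₀ _ hcp.ne'] at hlt
    have : (S.card : ℝ) = ∑ q ∈ cells ×ˢ cells,
        ((S.filter fun p => (fx p.1, fy p.2) = q).card : ℝ) := by
      rw [hsum]; push_cast; rfl
    linarith
  refine ⟨G.filter fun i => fx i = q.1, Finset.filter_subset _ _,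
    H.filter fun j => fy j = q.2, Finset.filter_subset _ _, ?_, ?_⟩
  · have e1 : (S.filter fun p => (fx p.1, fy p.2) = q)
        ⊆ S ∩ ((G.filter fun i => fx i = q.1) ×ˢ (H.filter fun j => fy j = q.2)) := by
      intro p hp
      rw [Finset.mem_filter] at hp
      obtain ⟨hp1, hp2⟩ := hp
      obtain ⟨h1, h2⟩ := hS p hp1
      rw [Finset.mem_inter, Finset.mem_product, Finset.mem_filter, Finset.mem_filter]
      refine ⟨hp1, ⟨h1, ?_⟩, h2, ?_⟩
      · rw [← hp2]
      · rw [← hp2]
    have e2 : (((S.filter fun p => (fx p.1, fy p.2) = q)).card : ℝ) ≤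
        ((S ∩ ((G.filter fun i => fx i = q.1) ×ˢ (H.filter fun j => fy j = q.2))).card : ℝ) := by
      exact_mod_cast Finset.card_le_card e1
    have e3 : ((cells ×ˢ cells).card : ℝ) ≤ ((c ^ d * c ^ d : ℕ) : ℝ) := by
      rw [Finset.card_product]
      exact_mod_cast Nat.mul_le_mul hcellcard hcellcard
    calc (S.card : ℝ) ≤ _ := hqc
      _ ≤ ((c ^ d * c ^ d : ℕ) : ℝ) * _ := mul_le_mul e3 e2 (by positivity) (by positivity)
  · intro i hi j hj i' hi' j' hj'
    rw [Finset.mem_filter] at hi hj hi' hj'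
    rw [← Finset.sum_sub_distrib]
    have hclose : ∀ a b : ℝ, ⌊a / h⌋ = ⌊b / h⌋ → |a - b| ≤ h := by
      intro a b hab
      have h1 := Int.abs_sub_lt_one_of_floor_eq_floor hab
      rw [← sub_div, abs_div, abs_of_pos hhpos, div_lt_one hhpos] at h1
      exact h1.le
    calc |∑ l, (w l * x l i * y l j - w l * x l i' * y l j')|
        ≤ ∑ l, |w l * x l i * y l j - w l * x l i' * y l j'| := Finset.abs_sum_le_sum_abs _ _
      _ ≤ ∑ _l : Λ, C * (2 * T * h) := by
          refine Finset.sum_le_sum fun l _ => ?_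
          have ex : |x l i - x l i'| ≤ h := by
            apply hclose
            have := congrFun (hi.2.trans hi'.2.symm) l
            exact this
          have ey : |y l j - y l j'| ≤ h := by
            apply hclose
            have := congrFun (hj.2.trans hj'.2.symm) l
            exact this
          have e0 : w l * x l i * y l j - w l * x l i' * y l j'
              = w l * ((x l i - x l i') * y l j + x l i' * (y l j - y l j')) := by ring
          rw [e0, abs_mul]
          refine mul_le_mul (hw l) ?_ (abs_nonneg _) hC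
          calc |(x l i - x l i') * y l j + x l i' * (y l j - y l j')|
              ≤ |(x l i - x l i') * y l j| + |x l i' * (y l j - y l j')| := abs_add_le _ _
            _ = |x l i - x l i'| * |y l j| + |x l i'| * |y l j - y l j'| := by
                rw [abs_mul, abs_mul]
            _ ≤ h * T + T * h := add_le_add
                (mul_le_mul ex (hy l j hj.1) (abs_nonneg _) hhpos.le)
                (mul_le_mul (hx l i' hi'.1) ey (abs_nonneg _) hT.le)
            _ = 2 * T * h := by ring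
      _ = (Fintype.card Λ : ℝ) * (C * (2 * T * h)) := by
          rw [Finset.sum_const, nsmul_eq_mul, Finset.card_univ]
      _ ≤ (d + 1 : ℝ) * ((C + 1) * (2 * T * h)) := by
          have h1 : (Fintype.card Λ : ℝ) ≤ d + 1 := by
            have : (Fintype.card Λ : ℝ) ≤ d := by exact_mod_cast hcard
            linarith
          refine mul_le_mul h1 ?_ (by positivity) (by positivity)
          refine mul_le_mul_of_nonneg_right (by linarith) (by positivity)
      _ = s := by
          rw [hh]; field_simp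

end Pool.Agent.Q204.NNM
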