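import Mathlib

open Filter Topology Finset

namespace Pool.Agent.Q204.NNM

/-- The nuclear norm: the sum of the singular values, that is of the square roots of the
eigenvalues (with multiplicity) of `Aᴴ * A`. -/
noncomputable def nuc {m n : ℕ} (A : Matrix (Fin m) (Fin n) ℝ) : ℝ :=
  ∑ j, Real.sqrt ((Matrix.isHermitian_conjTranspose_mul_self A).eigenvalues j)

theorem svd {m n : ℕ} (A : Matrix (Fin m) (Fin n) ℝ) :
    ∃ (σ : Fin n → ℝ) (u : Fin n → Fin m → ℝ) (v : Fin n → Fin n → ℝ),
      (∀ l, 0 ≤ σ l) ∧ nuc A = ∑ l, σ l ∧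
      (∀ i j, A i j = ∑ l, σ l * u l i * v l j) ∧
      (∀ l l', ∑ j, v l j * v l' j = if l = l' then 1 else 0) ∧
      (∀ l l', l ≠ l' → ∑ i, u l i * u l' i = 0) ∧
      (∀ l, ∑ i, u l i ^ 2 = if σ l = 0 then 0 else 1) ∧
      ((univ.filter fun l => σ l ≠ 0).card = A.rank) := by
  classical
  set hM := Matrix.isHermitian_conjTranspose_mul_self A with hMdef
  set U : Matrix (Fin n) (Fin n) ℝ := (hM.eigenvectorUnitary : Matrix (Fin n) (Fin n) ℝ) with hU
  set lam := hM.eigenvalues with hlam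
  have hpos : ∀ l, 0 ≤ lam l := fun l => Matrix.eigenvalues_conjTranspose_mul_self_nonneg A l
  have hUU : star U * U = 1 := by
    have := (Matrix.mem_unitaryGroup_iff' (A := U)).1 (hM.eigenvectorUnitary).2
    exact this
  have hUU' : U * star U = 1 := by
    have := (Matrix.mem_unitaryGroup_iff (A := U)).1 (hM.eigenvectorUnitary).2
    exact this
  set v : Fin n → Fin n → ℝ := fun l j => U j l with hv
  have hvv : ∀ l l', ∑ j, v l j * v l' j = if l = l' then 1 else 0 := by
    intro l l'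
    have := congrFun (congrFun hUU l) l'
    rw [Matrix.mul_apply, Matrix.one_apply] at this
    simpa [Matrix.star_apply, hv] using this
  have hvv' : ∀ j j', ∑ l, v l j * v l j' = if j = j' then 1 else 0 := by
    intro j j'
    have := congrFun (congrFun hUU' j) j'
    rw [Matrix.mul_apply, Matrix.one_apply] at this
    simpa [Matrix.star_apply, hv] using this
  have heig : ∀ l, (A.conjTranspose * A).mulVec (v l) = lam l • v l := by
    intro l
    exact hM.mulVec_eigenvectorBasis l
  set a : Fin n → Fin m → ℝ := fun l i => ∑ j, A i j * v l j with ha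
  have haa : ∀ l l', ∑ i, a l i * a l' i = if l = l' then lam l else 0 := by
    intro l l'
    have h1 : ∑ i, a l i * a l' i = ∑ j, v l j * ((A.conjTranspose * A).mulVec (v l')) j := by
      have e1 : (A.conjTranspose * A).mulVec (v l') = A.conjTranspose.mulVec (A.mulVec (v l')) := by
        rw [Matrix.mulVec_mulVec]
      rw [e1]
      simp only [Matrix.mulVec, dotProduct, Matrix.conjTranspose_apply, star_trivial, ha]
      calc ∑ i, (∑ j, A i j * v l j) * (∑ j, A i j * v l' j)
          = ∑ i, ∑ j, v l j * (A i j * (∑ j', A i j' * v l' j')) := by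
            refine Finset.sum_congr rfl fun i _ => ?_
            rw [Finset.sum_mul]
            refine Finset.sum_congr rfl fun j _ => ?_
            ring
        _ = ∑ j, ∑ i, v l j * (A i j * (∑ j', A i j' * v l' j')) := Finset.sum_comm
        _ = _ := by
            refine Finset.sum_congr rfl fun j _ => ?_
            rw [Finset.mul_sum]
    rw [h1, heig l']
    have h2 : ∑ j, v l j * (lam l' • v l') j = lam l' * ∑ j, v l j * v l' j := by
      rw [Finset.mul_sum]
      refine Finset.sum_congr rfl fun j _ => ?_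
      simp only [Pi.smul_apply, smul_eq_mul]
      ring
    rw [h2, hvv]
    by_cases h : l = l'
    · subst h; simp
    · simp [h]
  have hA : ∀ i j, A i j = ∑ l, a l i * v l j := by
    intro i j
    simp only [ha]
    have : ∑ l, (∑ j', A i j' * v l j') * v l j = ∑ j', A i j' * ∑ l, v l j' * v l j := by
      simp only [Finset.sum_mul, Finset.mul_sum]
      rw [Finset.sum_comm]
      refine Finset.sum_congr rfl fun j' _ => Finset.sum_congr rfl fun l _ => ?_
      ring
    rw [this]
    simp [hvv']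
  set σ : Fin n → ℝ := fun l => Real.sqrt (lam l) with hσ
  set u : Fin n → Fin m → ℝ := fun l i => if σ l = 0 then 0 else a l i / σ l with hu
  have hσ0 : ∀ l, 0 ≤ σ l := fun l => Real.sqrt_nonneg _
  have hσ2 : ∀ l, σ l ^ 2 = lam l := fun l => Real.sq_sqrt (hpos l)
  have hσu : ∀ l i, σ l * u l i = a l i := by
    intro l i
    by_cases h : σ l = 0
    · have hl : lam l = 0 := by rw [← hσ2, h]; ring
      have h0 : ∑ i, a l i * a l i = 0 := by rw [haa l l]; simp [hl]
      have h1 := (Finset.sum_eq_zero_iff_of_nonneg (fun i _ => mul_self_nonneg (a l i))).1 h0 i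
        (Finset.mem_univ i)
      have h2 : a l i = 0 := mul_self_eq_zero.1 h1
      simp [h, h2]
    · simp only [hu, h, if_false]
      field_simp
  refine ⟨σ, u, v, hσ0, rfl, ?_, hvv, ?_, ?_, ?_⟩
  · intro i j
    rw [hA i j]
    refine Finset.sum_congr rfl fun l _ => ?_
    rw [hσu]
  · intro l l' hne
    by_cases h : σ l = 0
    · simp [hu, h]
    by_cases h' : σ l' = 0
    · simp [hu, h']
    simp only [hu, h, h', if_false]
    have : ∑ i, a l i / σ l * (a l' i / σ l') = (∑ i, a l i * a l' i) / (σ l * σ l') := by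
      rw [Finset.sum_div]
      refine Finset.sum_congr rfl fun i _ => ?_
      field_simp
    rw [this, haa, if_neg hne, zero_div]
  · intro l
    by_cases h : σ l = 0
    · simp [hu, h]
    · simp only [hu, h, if_false]
      have : ∑ i, (a l i / σ l) ^ 2 = (∑ i, a l i * a l i) / (σ l ^ 2) := by
        rw [Finset.sum_div]
        refine Finset.sum_congr rfl fun i _ => ?_
        rw [div_pow]; ring
      rw [this, haa, if_pos rfl, hσ2]
      refine div_self ?_
      rw [← hσ2]; exact pow_ne_zero 2 h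
  · have h1 := hM.rank_eq_card_non_zero_eigs
    rw [Matrix.rank_conjTranspose_mul_self] at h1
    rw [h1, Fintype.card_subtype]
    congr 1
    ext l
    simp only [Finset.mem_filter, Finset.mem_univ, true_and]
    constructor
    · intro h h'; apply h; simp only [hσ]; rw [Real.sqrt_eq_zero']; exact le_of_eq h'
    · intro h h'; apply h; show lam l = 0; rw [← hσ2, h']; ring

/-- Bessel's inequality for a finite family with Gram matrix diagonal and at most one. -/
theorem bessel {ι κ : Type*} [Fintype ι] [Fintype κ] (e : ι → κ → ℝ)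
    (h0 : ∀ l l', l ≠ l' → ∑ i, e l i * e l' i = 0) (h1 : ∀ l, ∑ i, e l i ^ 2 ≤ 1) (x : κ → ℝ) :
    ∑ l, (∑ i, e l i * x i) ^ 2 ≤ ∑ i, x i ^ 2 := by
  classical
  set c : ι → ℝ := fun l => ∑ i, e l i * x i with hc
  have key : 0 ≤ ∑ i, (x i - ∑ l, c l * e l i) ^ 2 := Finset.sum_nonneg fun i _ => sq_nonneg _
  have e1 : ∑ i, (x i - ∑ l, c l * e l i) ^ 2 =
      ∑ i, x i ^ 2 - 2 * ∑ i, x i * (∑ l, c l * e l i) + ∑ i, (∑ l, c l * e l i) ^ 2 := by
    rw [Finset.mul_sum, ← Finset.sum_sub_distrib, ← Finset.sum_add_distrib]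
    refine Finset.sum_congr rfl fun i _ => ?_
    ring
  have e2 : ∑ i, x i * (∑ l, c l * e l i) = ∑ l, c l ^ 2 := by
    simp only [Finset.mul_sum]
    rw [Finset.sum_comm]
    refine Finset.sum_congr rfl fun l _ => ?_
    rw [sq]
    nth_rewrite 3 [hc]
    simp only
    rw [Finset.mul_sum]
    refine Finset.sum_congr rfl fun i _ => ?_
    ring
  have e3 : ∑ i, (∑ l, c l * e l i) ^ 2 = ∑ l, c l ^ 2 * ∑ i, e l i ^ 2 := by
    have : ∀ i, (∑ l, c l * e l i) ^ 2 = ∑ l, ∑ l', (c l * c l') * (e l i * e l' i) := by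
      intro i
      rw [sq, Finset.sum_mul]
      refine Finset.sum_congr rfl fun l _ => ?_
      rw [Finset.mul_sum]
      refine Finset.sum_congr rfl fun l' _ => ?_
      ring
    simp only [this]
    rw [Finset.sum_comm]
    refine Finset.sum_congr rfl fun l _ => ?_
    rw [Finset.sum_comm]
    have h2 : ∀ l', ∑ i, (c l * c l') * (e l i * e l' i) =
        if l' = l then c l ^ 2 * ∑ i, e l i ^ 2 else 0 := by
      intro l'
      rw [← Finset.mul_sum]
      by_cases h : l' = l
      · subst h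
        rw [if_pos rfl]
        congr 1
        · ring
        · refine Finset.sum_congr rfl fun i _ => ?_
          ring
      · rw [if_neg h, h0 l l' (Ne.symm h), mul_zero]
    simp only [h2]
    simp
  have e4 : ∑ l, c l ^ 2 * ∑ i, e l i ^ 2 ≤ ∑ l, c l ^ 2 :=
    Finset.sum_le_sum fun l _ => mul_le_of_le_one_right (sq_nonneg _) (h1 l)
  rw [e1, e2, e3] at key
  linarith

/-- Parseval for partial sums. -/
theorem parseval {ι κ : Type*} [Fintype κ] [DecidableEq ι] (v : ι → κ → ℝ)
    (h : ∀ l l', ∑ j, v l j * v l' j = if l = l' then 1 else 0) (S : Finset ι) (c : ι → ℝ) :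
    ∑ j, (∑ l ∈ S, c l * v l j) ^ 2 = ∑ l ∈ S, c l ^ 2 := by
  have : ∀ j, (∑ l ∈ S, c l * v l j) ^ 2 = ∑ l ∈ S, ∑ l' ∈ S, (c l * c l') * (v l j * v l' j) := by
    intro j
    rw [sq, Finset.sum_mul]
    refine Finset.sum_congr rfl fun l _ => ?_
    rw [Finset.mul_sum]
    refine Finset.sum_congr rfl fun l' _ => ?_
    ring
  simp only [this]
  rw [Finset.sum_comm]
  refine Finset.sum_congr rfl fun l hl => ?_
  rw [Finset.sum_comm]
  have h2 : ∀ l', ∑ j, (c l * c l') * (v l j * v l' j) = if l = l' then c l ^ 2 else 0 := by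
    intro l'
    rw [← Finset.mul_sum, h]
    by_cases hh : l = l'
    · subst hh; simp; ring
    · simp [hh]
  simp only [h2]
  rw [Finset.sum_ite_eq]
  simp [hl]

/-- Duality bound for the nuclear norm. -/
theorem nuc_ge {m n : ℕ} (A Z : Matrix (Fin m) (Fin n) ℝ) (c : ℝ)
    (hZ : ∀ (y : Fin m → ℝ) (x : Fin n → ℝ),
      ∑ i, ∑ j, y i * Z i j * x j ≤ c * (Real.sqrt (∑ i, y i ^ 2) * Real.sqrt (∑ j, x j ^ 2)))
    (hc : 0 ≤ c) :
    ∑ i, ∑ j, A i j * Z i j ≤ c * nuc A := by
  classical
  obtain ⟨σ, u, v, hσ, hnuc, hA, hv, hu0, hu1, -⟩ := svd A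
  have e1 : ∑ i, ∑ j, A i j * Z i j = ∑ l, σ l * ∑ i, ∑ j, u l i * Z i j * v l j := by
    simp only [hA, Finset.sum_mul, Finset.mul_sum]
    rw [Finset.sum_comm' (s := univ) (t := fun _ => univ) (t' := univ) (s' := fun _ => univ)
      (by simp)]
    have : ∀ i : Fin n, ∑ x : Fin m, ∑ l, σ l * u l x * v l i * Z x i
        = ∑ l, ∑ x : Fin m, σ l * (u l x * Z x i * v l i) := by
      intro i
      rw [Finset.sum_comm]
      refine Finset.sum_congr rfl fun l _ => Finset.sum_congr rfl fun x _ => ?_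
      ring
    simp only [this]
    rw [Finset.sum_comm]
    refine Finset.sum_congr rfl fun l _ => ?_
    rw [Finset.sum_comm]
  rw [e1, hnuc, Finset.mul_sum]
  refine Finset.sum_le_sum fun l _ => ?_
  have h1 := hZ (u l) (v l)
  have h2 : Real.sqrt (∑ i, u l i ^ 2) ≤ 1 := by
    rw [hu1]
    split_ifs <;> simp
  have h3 : Real.sqrt (∑ j, v l j ^ 2) ≤ 1 := by
    have : ∑ j, v l j ^ 2 = 1 := by
      have := hv l l
      simp only [if_true] at this
      rw [← this]
      refine Finset.sum_congr rfl fun j _ => ?_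
      ring
    rw [this]; simp
  have h4 : Real.sqrt (∑ i, u l i ^ 2) * Real.sqrt (∑ j, v l j ^ 2) ≤ 1 :=
    mul_le_one₀ h2 (Real.sqrt_nonneg _) h3
  have h5 : ∑ i, ∑ j, u l i * Z i j * v l j ≤ c := le_trans h1 (mul_le_of_le_one_right hc h4)
  calc σ l * ∑ i, ∑ j, u l i * Z i j * v l j ≤ σ l * c := mul_le_mul_of_nonneg_left h5 (hσ l)
    _ = c * σ l := mul_comm _ _

/-- The sign matrix. -/
theorem exists_sign {m n : ℕ} (A : Matrix (Fin m) (Fin n) ℝ) :
    ∃ W : Matrix (Fin m) (Fin n) ℝ,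
      (∀ (y : Fin m → ℝ) (x : Fin n → ℝ),
        ∑ i, ∑ j, y i * W i j * x j ≤ Real.sqrt (∑ i, y i ^ 2) * Real.sqrt (∑ j, x j ^ 2)) ∧
      ∑ i, ∑ j, A i j * W i j = nuc A ∧ ∑ i, ∑ j, W i j ^ 2 = A.rank := by
  classical
  obtain ⟨σ, u, v, hσ, hnuc, hA, hv, hu0, hu1, hrank⟩ := svd A
  have hv1 : ∀ l, ∑ j, v l j ^ 2 = 1 := by
    intro l
    have := hv l l
    simp only [if_true] at this
    rw [← this]
    refine Finset.sum_congr rfl fun j _ => ?_
    ring
  refine ⟨fun i j => ∑ l, u l i * v l j, ?_, ?_, ?_⟩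
  · intro y x
    have e1 : ∑ i, ∑ j, y i * (∑ l, u l i * v l j) * x j
        = ∑ l, (∑ i, u l i * y i) * (∑ j, v l j * x j) := by
      have : ∀ i j, y i * (∑ l, u l i * v l j) * x j = ∑ l, (u l i * y i) * (v l j * x j) := by
        intro i j
        rw [Finset.mul_sum, Finset.sum_mul]
        refine Finset.sum_congr rfl fun l _ => ?_
        ring
      simp only [this]
      have h2 : ∀ i, ∑ j, ∑ l, (u l i * y i) * (v l j * x j)
          = ∑ l, (u l i * y i) * ∑ j, v l j * x j := by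
        intro i
        rw [Finset.sum_comm]
        refine Finset.sum_congr rfl fun l _ => ?_
        rw [Finset.mul_sum]
      simp only [h2]
      rw [Finset.sum_comm]
      refine Finset.sum_congr rfl fun l _ => ?_
      rw [Finset.sum_mul]
    rw [e1]
    have hb1 : ∑ l, (∑ i, u l i * y i) ^ 2 ≤ ∑ i, y i ^ 2 :=
      bessel u hu0 (fun l => by rw [hu1]; split_ifs <;> simp) y
    have hb2 : ∑ l, (∑ j, v l j * x j) ^ 2 ≤ ∑ j, x j ^ 2 :=
      bessel v (fun l l' h => by rw [hv, if_neg h]) (fun l => le_of_eq (hv1 l)) x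
    calc ∑ l, (∑ i, u l i * y i) * (∑ j, v l j * x j)
        ≤ Real.sqrt (∑ l, (∑ i, u l i * y i) ^ 2) * Real.sqrt (∑ l, (∑ j, v l j * x j) ^ 2) :=
          Real.sum_mul_le_sqrt_mul_sqrt _ _ _
      _ ≤ _ := mul_le_mul (Real.sqrt_le_sqrt hb1) (Real.sqrt_le_sqrt hb2) (Real.sqrt_nonneg _)
          (Real.sqrt_nonneg _)
  · rw [hnuc]
    have e1 : ∀ i j, A i j * (∑ l, u l i * v l j)
        = ∑ l, ∑ l', (σ l * u l i * u l' i) * (v l j * v l' j) := by
      intro i j
      rw [hA i j, Finset.sum_mul]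
      refine Finset.sum_congr rfl fun l _ => ?_
      rw [Finset.mul_sum]
      refine Finset.sum_congr rfl fun l' _ => ?_
      ring
    have e2 : ∀ i, ∑ j, A i j * (∑ l, u l i * v l j) = ∑ l, σ l * u l i ^ 2 := by
      intro i
      simp only [e1]
      rw [Finset.sum_comm]
      refine Finset.sum_congr rfl fun l _ => ?_
      rw [Finset.sum_comm]
      have : ∀ l', ∑ j, (σ l * u l i * u l' i) * (v l j * v l' j)
          = if l = l' then σ l * u l i ^ 2 else 0 := by
        intro l'
        rw [← Finset.mul_sum, hv]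
        by_cases h : l = l'
        · subst h; simp; ring
        · simp [h]
      simp only [this]
      simp
    simp only [e2]
    rw [Finset.sum_comm]
    refine Finset.sum_congr rfl fun l _ => ?_
    rw [← Finset.mul_sum, hu1]
    by_cases h : σ l = 0
    · simp [h]
    · simp [h]
  · have e1 : ∀ i, ∑ j, (∑ l, u l i * v l j) ^ 2 = ∑ l, u l i ^ 2 := by
      intro i
      exact parseval v hv univ (fun l => u l i)
    simp only [e1]
    rw [Finset.sum_comm]
    simp only [hu1]
    rw [← hrank, Finset.card_filter]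
    push_cast
    refine Finset.sum_congr rfl fun l _ => ?_
    by_cases h : σ l = 0 <;> simp [h]

/-- Nuclear norm of a matrix of rank at most `K`. -/
theorem nuc_le {m n : ℕ} (A : Matrix (Fin m) (Fin n) ℝ) (K : ℕ) (hK : A.rank ≤ K) :
    nuc A ≤ Real.sqrt K * Real.sqrt (∑ i, ∑ j, A i j ^ 2) := by
  obtain ⟨W, -, h1, h2⟩ := exists_sign A
  rw [← h1]
  have e : ∀ B : Matrix (Fin m) (Fin n) ℝ, ∀ f : ℝ → ℝ,
      ∑ i, ∑ j, f (B i j) = ∑ p : Fin m × Fin n, f (B p.1 p.2) := by
    intro B f
    rw [← Finset.univ_product_univ, Finset.sum_product]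
  have e' : ∑ i, ∑ j, A i j * W i j = ∑ p : Fin m × Fin n, A p.1 p.2 * W p.1 p.2 := by
    rw [← Finset.univ_product_univ, Finset.sum_product]
  rw [e']
  calc ∑ p : Fin m × Fin n, A p.1 p.2 * W p.1 p.2
      ≤ Real.sqrt (∑ p : Fin m × Fin n, A p.1 p.2 ^ 2)
        * Real.sqrt (∑ p : Fin m × Fin n, W p.1 p.2 ^ 2) := Real.sum_mul_le_sqrt_mul_sqrt _ _ _
    _ = Real.sqrt (∑ i, ∑ j, A i j ^ 2) * Real.sqrt (A.rank) := by
        rw [← e A (fun t => t ^ 2), ← e W (fun t => t ^ 2), h2]
    _ ≤ Real.sqrt (∑ i, ∑ j, A i j ^ 2) * Real.sqrt K :=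
        mul_le_mul_of_nonneg_left (Real.sqrt_le_sqrt (by exact_mod_cast hK)) (Real.sqrt_nonneg _)
    _ = _ := mul_comm _ _

end Pool.Agent.Q204.NNM
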