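import Mathlib
import Pool.Agent.Q204.NNM.Svd
import Pool.Agent.Q204.NNM.Cell

open Filter Topology Finset

namespace Pool.Agent.Q204.NNM

/-- Normalised singular value data of a matrix. -/
structure Feat {m n : ℕ} (A : Matrix (Fin m) (Fin n) ℝ) (w : Fin n → ℝ)
    (x : Fin n → Fin m → ℝ) (y : Fin n → Fin n → ℝ) : Prop where
  nonneg : ∀ l, 0 ≤ w l
  eq : ∀ i j, A i j = ∑ l, w l * x l i * y l j
  hx : ∀ l, ∑ i, x l i ^ 2 ≤ m
  hy : ∀ l, ∑ j, y l j ^ 2 ≤ n
  tail : ∀ S : Finset (Fin n), ∑ i, ∑ j, (∑ l ∈ S, w l * x l i * y l j) ^ 2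
    ≤ (m : ℝ) * n * ∑ l ∈ S, w l ^ 2
  sum : Real.sqrt ((m : ℝ) * n) * ∑ l, w l = nuc A
  rank : (univ.filter fun l => w l ≠ 0).card = A.rank

theorem exists_feat {m n : ℕ} (hm : 0 < m) (hn : 0 < n) (A : Matrix (Fin m) (Fin n) ℝ) :
    ∃ w x y, Feat A w x y := by
  classical
  obtain ⟨σ, u, v, hσ, hnuc, hA, hv, hu0, hu1, hrank⟩ := svd A
  have hm' : (0 : ℝ) < m := by exact_mod_cast hm
  have hn' : (0 : ℝ) < n := by exact_mod_cast hn
  set c : ℝ := Real.sqrt ((m : ℝ) * n) with hc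
  have hcpos : 0 < c := Real.sqrt_pos.2 (by positivity)
  have hc2 : c = Real.sqrt m * Real.sqrt n := Real.sqrt_mul hm'.le _
  have hsm : Real.sqrt m ^ 2 = m := Real.sq_sqrt hm'.le
  have hsn : Real.sqrt n ^ 2 = n := Real.sq_sqrt hn'.le
  have hterm : ∀ l i j, σ l / c * (Real.sqrt m * u l i) * (Real.sqrt n * v l j)
      = σ l * u l i * v l j := by
    intro l i j
    have : σ l / c * (Real.sqrt m * u l i) * (Real.sqrt n * v l j)
        = σ l * u l i * v l j * ((Real.sqrt m * Real.sqrt n) / c) := by ring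
    rw [this, ← hc2, div_self hcpos.ne', mul_one]
  refine ⟨fun l => σ l / c, fun l i => Real.sqrt m * u l i, fun l j => Real.sqrt n * v l j,
    ⟨?_, ?_, ?_, ?_, ?_, ?_, ?_⟩⟩
  · intro l; exact div_nonneg (hσ l) hcpos.le
  · intro i j
    rw [hA i j]
    exact Finset.sum_congr rfl fun l _ => (hterm l i j).symm
  · intro l
    simp only [mul_pow, hsm]
    rw [← Finset.mul_sum, hu1]
    split_ifs
    · simp
    · simp
  · intro l
    simp only [mul_pow, hsn]
    rw [← Finset.mul_sum]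
    have : ∑ j, v l j ^ 2 = 1 := by
      have := hv l l
      simp only [if_true] at this
      rw [← this]
      refine Finset.sum_congr rfl fun j _ => ?_
      ring
    rw [this, mul_one]
  · intro S
    simp only [hterm]
    have e1 : ∀ i, ∑ j, (∑ l ∈ S, σ l * u l i * v l j) ^ 2 = ∑ l ∈ S, (σ l * u l i) ^ 2 := fun i =>
      parseval v hv S (fun l => σ l * u l i)
    simp only [e1]
    rw [Finset.sum_comm]
    have e2 : (m : ℝ) * n * ∑ l ∈ S, (σ l / c) ^ 2 = ∑ l ∈ S, σ l ^ 2 := by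
      rw [Finset.mul_sum]
      refine Finset.sum_congr rfl fun l _ => ?_
      rw [div_pow, hc, Real.sq_sqrt (by positivity)]
      field_simp
    rw [e2]
    refine Finset.sum_le_sum fun l _ => ?_
    simp only [mul_pow]
    rw [← Finset.mul_sum, hu1]
    split_ifs
    · simp; positivity
    · simp
  · rw [hnuc, Finset.mul_sum]
    refine Finset.sum_congr rfl fun l _ => ?_
    rw [← hc]
    field_simp
  · rw [← hrank]
    congr 1
    ext l
    simp only [Finset.mem_filter, Finset.mem_univ, true_and]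
    rw [div_ne_zero_iff]
    exact ⟨fun h => h.1, fun h => ⟨h, hcpos.ne'⟩⟩

theorem markov {I : Type} (U : Finset I) (f : I → ℝ) (hf : ∀ i ∈ U, 0 ≤ f i) (t : ℝ)
    (p : I → Prop) [DecidablePred p] (hp : ∀ i ∈ U, p i → t ≤ f i) :
    ((U.filter p).card : ℝ) * t ≤ ∑ i ∈ U, f i := by
  calc ((U.filter p).card : ℝ) * t = ∑ _i ∈ U.filter p, t := by
        rw [Finset.sum_const, nsmul_eq_mul]
    _ ≤ ∑ i ∈ U.filter p, f i := Finset.sum_le_sum fun i hi => by
        rw [Finset.mem_filter] at hi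
        exact hp i hi.1 hi.2
    _ ≤ ∑ i ∈ U, f i := Finset.sum_le_sum_of_subset_of_nonneg (Finset.filter_subset _ _)
        fun i hi _ => hf i hi

/-- Rows where all the features are bounded by `T` and the weighted sum of squares is at most `s`
have small complement. -/
theorem bad_rows {I Λ Λ' : Type} [Fintype I] [Fintype Λ] [DecidableEq I] (d : ℕ)
    (hcard : Fintype.card Λ ≤ d) (θ T s κ μ : ℝ) (hs : 0 < s) (hT : (d : ℝ) ≤ θ * T ^ 2)
    (hT0 : 0 < T) (X : Λ → I → ℝ) (hμ : 0 ≤ μ) (hX : ∀ l, ∑ i, X l i ^ 2 ≤ μ)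
    (M : Finset Λ') (w : Λ' → ℝ)
    (hw : ∀ l, 0 ≤ w l) (x : Λ' → I → ℝ) (hx : ∀ l, ∑ i, x l i ^ 2 ≤ μ)
    (hM : ∑ l ∈ M, w l ≤ κ) (hκ : κ ≤ θ * s) :
    ((univ.filter fun i => ¬ ((∀ l, |X l i| ≤ T) ∧ ∑ l ∈ M, w l * x l i ^ 2 ≤ s)).card : ℝ)
      ≤ 2 * θ * μ := by
  classical
  have h1 : ((univ.filter fun i : I => ∃ l, T < |X l i|).card : ℝ) * T ^ 2 ≤ ∑ i, ∑ l, X l i ^ 2 := by
    refine markov univ _ (fun i _ => Finset.sum_nonneg fun l _ => sq_nonneg _) _ _ ?_
    rintro i - ⟨l, hl⟩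
    calc T ^ 2 ≤ X l i ^ 2 := by
          rw [← sq_abs (X l i)]
          exact pow_le_pow_left₀ hT0.le hl.le 2
      _ ≤ _ := Finset.single_le_sum (f := fun l => X l i ^ 2) (fun l _ => sq_nonneg _)
          (Finset.mem_univ l)
  have h2 : ∑ i, ∑ l, X l i ^ 2 ≤ d * μ := by
    rw [Finset.sum_comm]
    calc ∑ l, ∑ i, X l i ^ 2 ≤ ∑ _l : Λ, μ := Finset.sum_le_sum fun l _ => hX l
      _ = (Fintype.card Λ : ℝ) * μ := by rw [Finset.sum_const, nsmul_eq_mul, Finset.card_univ]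
      _ ≤ d * μ := mul_le_mul_of_nonneg_right (by exact_mod_cast hcard) hμ
  have h3 : ((univ.filter fun i : I => ∃ l, T < |X l i|).card : ℝ) ≤ θ * μ := by
    have hT2 : 0 < T ^ 2 := by positivity
    have : ((univ.filter fun i : I => ∃ l, T < |X l i|).card : ℝ) * T ^ 2 ≤ θ * μ * T ^ 2 := by
      calc _ ≤ d * μ := h1.trans h2
        _ ≤ (θ * T ^ 2) * μ := mul_le_mul_of_nonneg_right hT hμ
        _ = _ := by ring
    exact le_of_mul_le_mul_right this hT2
  have h4 : ((univ.filter fun i : I => s < ∑ l ∈ M, w l * x l i ^ 2).card : ℝ) * s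
      ≤ ∑ i, ∑ l ∈ M, w l * x l i ^ 2 := by
    refine markov univ _ (fun i _ => Finset.sum_nonneg fun l _ =>
      mul_nonneg (hw l) (sq_nonneg _)) _ _ ?_
    intro i _ h
    exact h.le
  have h5 : ∑ i, ∑ l ∈ M, w l * x l i ^ 2 ≤ θ * s * μ := by
    rw [Finset.sum_comm]
    calc ∑ l ∈ M, ∑ i, w l * x l i ^ 2 ≤ ∑ l ∈ M, w l * μ := by
          refine Finset.sum_le_sum fun l _ => ?_
          rw [← Finset.mul_sum]
          exact mul_le_mul_of_nonneg_left (hx l) (hw l)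
      _ = (∑ l ∈ M, w l) * μ := by rw [Finset.sum_mul]
      _ ≤ θ * s * μ := mul_le_mul_of_nonneg_right (hM.trans hκ) hμ
  have h6 : ((univ.filter fun i : I => s < ∑ l ∈ M, w l * x l i ^ 2).card : ℝ) ≤ θ * μ := by
    have : ((univ.filter fun i : I => s < ∑ l ∈ M, w l * x l i ^ 2).card : ℝ) * s
        ≤ θ * μ * s := by
      calc _ ≤ θ * s * μ := h4.trans h5
        _ = _ := by ring
    exact le_of_mul_le_mul_right this hs
  have h7 : (univ.filter fun i => ¬ ((∀ l, |X l i| ≤ T) ∧ ∑ l ∈ M, w l * x l i ^ 2 ≤ s))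
      ⊆ (univ.filter fun i : I => ∃ l, T < |X l i|)
        ∪ (univ.filter fun i : I => s < ∑ l ∈ M, w l * x l i ^ 2) := by
    intro i hi
    simp only [Finset.mem_filter, Finset.mem_univ, true_and, Finset.mem_union] at hi ⊢
    by_contra hcon
    push Not at hcon
    exact hi hcon
  have h8 : ((univ.filter fun i => ¬ ((∀ l, |X l i| ≤ T) ∧
      ∑ l ∈ M, w l * x l i ^ 2 ≤ s)).card : ℝ)
      ≤ ((univ.filter fun i : I => ∃ l, T < |X l i|).card : ℝ)
        + ((univ.filter fun i : I => s < ∑ l ∈ M, w l * x l i ^ 2).card : ℝ) := by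
    exact_mod_cast (Finset.card_le_card h7).trans (Finset.card_union_le _ _)
  linarith

theorem step (C s θ a : ℝ) (K : ℕ) (hC : 0 ≤ C) (hs : 0 < s) (hθ : 0 < θ) (ha : 0 < a) :
    ∃ ρ > 0, ∀ δ > 0, ∃ b > 0, b ≤ a ∧ ∀ {m n : ℕ} (_ : 0 < m) (_ : 0 < n)
      (P B A : Matrix (Fin m) (Fin n) ℝ) (w : Fin n → ℝ) (x : Fin n → Fin m → ℝ)
      (y : Fin n → Fin n → ℝ) (w' : Fin n → ℝ) (x' : Fin n → Fin m → ℝ) (y' : Fin n → Fin n → ℝ)
      (_ : Feat B w x y) (_ : Feat A w' x' y') (_ : ∑ l, w l ≤ C) (_ : ∑ l, w' l ≤ C)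
      (_ : A.rank ≤ K)
      (_ : ∀ (R : Finset (Fin m)) (Q : Finset (Fin n)), ρ * ((m : ℝ) * n) ≤ R.card * Q.card →
        δ * ((m : ℝ) * n) ≤ (((R ×ˢ Q).filter fun p => P p.1 p.2 ≠ 0).card : ℝ))
      (_ : ∑ l ∈ univ.filter (fun l => b ≤ w l ∧ w l < a), w l ≤ θ * (s / 8))
      (_ : ∀ i j, P i j ≠ 0 → B i j = A i j),
      ((univ.filter fun p : Fin m × Fin n => s < |B p.1 p.2 - A p.1 p.2|).card : ℝ)
        ≤ 5 * θ * ((m : ℝ) * n) := by
  classical
  set d : ℕ := ⌈C / a⌉₊ + K with hd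
  set T : ℝ := Real.sqrt (d / θ) + 1 with hT
  have hTpos : 0 < T := by positivity
  have hT1 : (d : ℝ) ≤ θ * T ^ 2 := by
    have h1 : (d / θ : ℝ) ≤ T ^ 2 := by
      have h2 : Real.sqrt (d / θ) ^ 2 = d / θ := Real.sq_sqrt (by positivity)
      rw [← h2]
      exact pow_le_pow_left₀ (Real.sqrt_nonneg _) (by rw [hT]; linarith) 2
    rw [div_le_iff₀ hθ] at h1
    linarith
  obtain ⟨N, hN, hcell⟩ := cell d T C (s / 8) hTpos hC (by positivity)
  have hN' : (0 : ℝ) < N := by exact_mod_cast hN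
  refine ⟨θ / (2 * N), by positivity, ?_⟩
  intro δ hδ
  set mn : ℝ := min (δ / 2) (θ / 2) with hmn
  have hmnpos : 0 < mn := by positivity
  refine ⟨min a (s ^ 2 * mn / (16 * (C + 1))), by positivity, min_le_left _ _, ?_⟩
  set b : ℝ := min a (s ^ 2 * mn / (16 * (C + 1))) with hb
  have hbpos : 0 < b := by positivity
  have hbC : b * C * 16 ≤ s ^ 2 * mn := by
    have h1 : b ≤ s ^ 2 * mn / (16 * (C + 1)) := min_le_right _ _
    rw [le_div_iff₀ (by positivity)] at h1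
    nlinarith
  intro m n hm hn P B A w x y w' x' y' hB hA hwC hwC' hK hP hmid hPD
  have hm' : (0 : ℝ) < m := by exact_mod_cast hm
  have hn' : (0 : ℝ) < n := by exact_mod_cast hn
  have hmn' : (0 : ℝ) < (m : ℝ) * n := by positivity
  by_contra hcon
  push Not at hcon
  set S := univ.filter fun p : Fin m × Fin n => s < |B p.1 p.2 - A p.1 p.2| with hS
  -- index sets
  set Mid := univ.filter (fun l : Fin n => b ≤ w l ∧ w l < a) with hMid
  set Tl := univ.filter (fun l : Fin n => w l < b) with hTl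
  let Λ := {l : Fin n // a ≤ w l} ⊕ {l : Fin n // w' l ≠ 0}
  have hcardΛ : Fintype.card Λ ≤ d := by
    rw [Fintype.card_sum, Fintype.card_subtype, Fintype.card_subtype, hA.rank, hd]
    refine Nat.add_le_add ?_ hK
    have h1 : ((univ.filter fun l : Fin n => a ≤ w l).card : ℝ) * a ≤ ∑ l, w l :=
      markov univ w (fun l _ => hB.nonneg l) a _ (fun l _ h => h)
    have h2 : ((univ.filter fun l : Fin n => a ≤ w l).card : ℝ) ≤ C / a := by
      rw [le_div_iff₀ ha]; linarith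
    have h3 : ((univ.filter fun l : Fin n => a ≤ w l).card : ℝ) ≤ (⌈C / a⌉₊ : ℝ) :=
      h2.trans (Nat.le_ceil _)
    exact_mod_cast h3
  let W : Λ → ℝ := Sum.elim (fun l => w l.1) (fun l => -(w' l.1))
  let X : Λ → Fin m → ℝ := Sum.elim (fun l => x l.1) (fun l => x' l.1)
  let Y : Λ → Fin n → ℝ := Sum.elim (fun l => y l.1) (fun l => y' l.1)
  have hX : ∀ l, ∑ i, X l i ^ 2 ≤ (m : ℝ) := by
    rintro (l | l)
    · exact hB.hx l.1
    · exact hA.hx l.1
  have hY : ∀ l, ∑ j, Y l j ^ 2 ≤ (n : ℝ) := by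
    rintro (l | l)
    · exact hB.hy l.1
    · exact hA.hy l.1
  have hW : ∀ l, |W l| ≤ C := by
    rintro (l | l)
    · show |w l.1| ≤ C
      rw [abs_of_nonneg (hB.nonneg _)]
      exact (Finset.single_le_sum (fun l _ => hB.nonneg l) (Finset.mem_univ l.1)).trans hwC
    · show |-(w' l.1)| ≤ C
      rw [abs_neg, abs_of_nonneg (hA.nonneg _)]
      exact (Finset.single_le_sum (fun l _ => hA.nonneg l) (Finset.mem_univ l.1)).trans hwC'
  set G := univ.filter fun i : Fin m => (∀ l, |X l i| ≤ T) ∧ ∑ l ∈ Mid, w l * x l i ^ 2 ≤ s / 8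
    with hG
  set H := univ.filter fun j : Fin n => (∀ l, |Y l j| ≤ T) ∧ ∑ l ∈ Mid, w l * y l j ^ 2 ≤ s / 8
    with hH
  have hGc : ((univ.filter fun i : Fin m => ¬ ((∀ l, |X l i| ≤ T) ∧
      ∑ l ∈ Mid, w l * x l i ^ 2 ≤ s / 8)).card : ℝ) ≤ 2 * θ * m :=
    bad_rows d hcardΛ θ T (s / 8) (θ * (s / 8)) m (by positivity) hT1 hTpos X hm'.le hX Mid w
      hB.nonneg x hB.hx hmid le_rfl
  have hHc : ((univ.filter fun j : Fin n => ¬ ((∀ l, |Y l j| ≤ T) ∧
      ∑ l ∈ Mid, w l * y l j ^ 2 ≤ s / 8)).card : ℝ) ≤ 2 * θ * n :=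
    bad_rows d hcardΛ θ T (s / 8) (θ * (s / 8)) n (by positivity) hT1 hTpos Y hn'.le hY Mid w
      hB.nonneg y hB.hy hmid le_rfl
  -- decomposition
  have hdecomp : ∀ i j, B i j - A i j = ∑ l, W l * X l i * Y l j
      + ∑ l ∈ Mid, w l * x l i * y l j + ∑ l ∈ Tl, w l * x l i * y l j := by
    intro i j
    rw [hB.eq, hA.eq]
    have e1 : ∑ l, W l * X l i * Y l j = ∑ l : {l : Fin n // a ≤ w l}, w l.1 * x l.1 i * y l.1 j
        - ∑ l : {l : Fin n // w' l ≠ 0}, w' l.1 * x' l.1 i * y' l.1 j := by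
      rw [Fintype.sum_sum_type, sub_eq_add_neg, ← Finset.sum_neg_distrib]
      congr 1
      refine Finset.sum_congr rfl fun l _ => ?_
      show -(w' l.1) * x' l.1 i * y' l.1 j = _
      ring
    have e2 : ∑ l : {l : Fin n // a ≤ w l}, w l.1 * x l.1 i * y l.1 j
        = ∑ l ∈ univ.filter (fun l : Fin n => a ≤ w l), w l * x l i * y l j := by
      rw [Finset.sum_subtype (univ.filter (fun l : Fin n => a ≤ w l)) (p := fun l => a ≤ w l)
        (by simp) (fun l => w l * x l i * y l j)]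
    have e3 : ∑ l : {l : Fin n // w' l ≠ 0}, w' l.1 * x' l.1 i * y' l.1 j
        = ∑ l, w' l * x' l i * y' l j := by
      rw [← Finset.sum_subtype (univ.filter (fun l : Fin n => w' l ≠ 0)) (p := fun l => w' l ≠ 0)
        (by simp) (fun l => w' l * x' l i * y' l j)]
      refine Finset.sum_filter_of_ne ?_
      intro l _ h h0
      apply h
      rw [h0]; ring
    rw [e1, e2, e3]
    have e4 : ∑ l, w l * x l i * y l j
        = ∑ l ∈ univ.filter (fun l : Fin n => a ≤ w l), w l * x l i * y l j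
          + ∑ l ∈ Mid, w l * x l i * y l j + ∑ l ∈ Tl, w l * x l i * y l j := by
      have h1 := Finset.sum_filter_add_sum_filter_not univ (fun l : Fin n => a ≤ w l)
        (fun l => w l * x l i * y l j)
      have h2 := Finset.sum_filter_add_sum_filter_not
        (univ.filter fun l : Fin n => ¬ a ≤ w l) (fun l : Fin n => b ≤ w l)
        (fun l => w l * x l i * y l j)
      rw [Finset.filter_filter, Finset.filter_filter] at h2
      have h3 : (univ.filter fun l : Fin n => ¬ a ≤ w l ∧ b ≤ w l) = Mid := by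
        rw [hMid]
        ext l
        simp only [Finset.mem_filter, Finset.mem_univ, true_and, not_le]
        exact and_comm
      have h4 : (univ.filter fun l : Fin n => ¬ a ≤ w l ∧ ¬ b ≤ w l) = Tl := by
        rw [hTl]
        ext l
        simp only [Finset.mem_filter, Finset.mem_univ, true_and, not_le]
        exact ⟨fun h => h.2, fun h => ⟨lt_of_lt_of_le h (min_le_left _ _), h⟩⟩
      rw [h3, h4] at h2
      rw [← h1, ← h2]
      ring
    rw [e4]
    ring
  -- the tail set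
  set U := univ.filter fun p : Fin m × Fin n => s / 4 ≤ |∑ l ∈ Tl, w l * x l p.1 * y l p.2| with hU
  have hUcard : (U.card : ℝ) ≤ mn * ((m : ℝ) * n) := by
    have h1 : (U.card : ℝ) * (s / 4) ^ 2
        ≤ ∑ p : Fin m × Fin n, (∑ l ∈ Tl, w l * x l p.1 * y l p.2) ^ 2 := by
      refine markov univ _ (fun p _ => sq_nonneg _) _ _ ?_
      intro p _ h
      rw [← sq_abs (∑ l ∈ Tl, w l * x l p.1 * y l p.2)]
      exact pow_le_pow_left₀ (by positivity) h 2
    have h2 : ∑ p : Fin m × Fin n, (∑ l ∈ Tl, w l * x l p.1 * y l p.2) ^ 2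
        ≤ (m : ℝ) * n * ∑ l ∈ Tl, w l ^ 2 := by
      rw [← Finset.univ_product_univ, Finset.sum_product]
      exact hB.tail Tl
    have h3 : ∑ l ∈ Tl, w l ^ 2 ≤ b * C := by
      calc ∑ l ∈ Tl, w l ^ 2 ≤ ∑ l ∈ Tl, b * w l := by
            refine Finset.sum_le_sum fun l hl => ?_
            rw [hTl, Finset.mem_filter] at hl
            rw [sq]
            exact mul_le_mul_of_nonneg_right hl.2.le (hB.nonneg l)
        _ = b * ∑ l ∈ Tl, w l := by rw [Finset.mul_sum]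
        _ ≤ b * ∑ l, w l := mul_le_mul_of_nonneg_left
            (Finset.sum_le_sum_of_subset_of_nonneg (Finset.subset_univ _)
              fun l _ _ => hB.nonneg l) hbpos.le
        _ ≤ b * C := mul_le_mul_of_nonneg_left hwC hbpos.le
    have h4 : (U.card : ℝ) * (s / 4) ^ 2 ≤ (m : ℝ) * n * (b * C) :=
      (h1.trans h2).trans (mul_le_mul_of_nonneg_left h3 hmn'.le)
    have h5 : (U.card : ℝ) * (s / 4) ^ 2 ≤ mn * ((m : ℝ) * n) * (s / 4) ^ 2 := by
      calc _ ≤ (m : ℝ) * n * (b * C) := h4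
        _ ≤ (m : ℝ) * n * (s ^ 2 * mn / 16) := mul_le_mul_of_nonneg_left (by linarith) hmn'.le
        _ = _ := by ring
    exact le_of_mul_le_mul_right h5 (by positivity)
  -- the good part of S
  set S' := S.filter fun p => (p.1 ∈ G ∧ p.2 ∈ H) ∧ p ∉ U with hS'
  have hS'card : θ / 2 * ((m : ℝ) * n) ≤ (S'.card : ℝ) := by
    have hsub : S ⊆ S' ∪ ((univ.filter fun i : Fin m => ¬ ((∀ l, |X l i| ≤ T) ∧
        ∑ l ∈ Mid, w l * x l i ^ 2 ≤ s / 8)) ×ˢ univ) ∪ (univ ×ˢ (univ.filter fun j : Fin n =>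
          ¬ ((∀ l, |Y l j| ≤ T) ∧ ∑ l ∈ Mid, w l * y l j ^ 2 ≤ s / 8))) ∪ U := by
      intro p hp
      by_cases h1 : p ∈ U
      · exact Finset.mem_union_right _ h1
      by_cases h2 : p.2 ∈ H
      · by_cases h3 : p.1 ∈ G
        · refine Finset.mem_union_left _ (Finset.mem_union_left _ (Finset.mem_union_left _ ?_))
          rw [hS', Finset.mem_filter]
          exact ⟨hp, ⟨h3, h2⟩, h1⟩
        · refine Finset.mem_union_left _ (Finset.mem_union_left _ (Finset.mem_union_right _ ?_))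
          rw [Finset.mem_product, Finset.mem_filter]
          refine ⟨⟨Finset.mem_univ _, ?_⟩, Finset.mem_univ _⟩
          intro h4
          apply h3
          rw [hG, Finset.mem_filter]
          exact ⟨Finset.mem_univ _, h4⟩
      · refine Finset.mem_union_left _ (Finset.mem_union_right _ ?_)
        rw [Finset.mem_product, Finset.mem_filter]
        refine ⟨Finset.mem_univ _, Finset.mem_univ _, ?_⟩
        intro h4
        apply h2
        rw [hH, Finset.mem_filter]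
        exact ⟨Finset.mem_univ _, h4⟩
    have hc1 := (Finset.card_le_card hsub).trans (Finset.card_union_le _ _)
    have hc2 := hc1.trans (Nat.add_le_add_right (Finset.card_union_le _ _) _)
    have hc3 := hc2.trans (Nat.add_le_add_right (Nat.add_le_add_right
      (Finset.card_union_le _ _) _) _)
    rw [Finset.card_product, Finset.card_product, Finset.card_univ, Finset.card_univ,
      Fintype.card_fin, Fintype.card_fin] at hc3
    have hc4 : (S.card : ℝ) ≤ (S'.card : ℝ) + ((univ.filter fun i : Fin m => ¬ ((∀ l, |X l i| ≤ T) ∧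
        ∑ l ∈ Mid, w l * x l i ^ 2 ≤ s / 8)).card : ℝ) * n + m * ((univ.filter fun j : Fin n =>
          ¬ ((∀ l, |Y l j| ≤ T) ∧ ∑ l ∈ Mid, w l * y l j ^ 2 ≤ s / 8)).card : ℝ) + (U.card : ℝ) := by
      exact_mod_cast hc3
    have hc5 := mul_le_mul_of_nonneg_right hGc hn'.le
    have hc6 := mul_le_mul_of_nonneg_left hHc hm'.le
    have hc7 : mn * ((m : ℝ) * n) ≤ θ / 2 * ((m : ℝ) * n) :=
      mul_le_mul_of_nonneg_right (min_le_right _ _) hmn'.le
    nlinarith
  have hS'pos : (0 : ℝ) < S'.card := lt_of_lt_of_le (by positivity) hS'card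
  obtain ⟨R, hRG, Q, hQH, hcardRQ, hosc⟩ := hcell (Λ := Λ) hcardΛ W X Y hW G H
    (fun l i hi => by rw [hG, Finset.mem_filter] at hi; exact hi.2.1 l)
    (fun l j hj => by rw [hH, Finset.mem_filter] at hj; exact hj.2.1 l)
    S' (fun p hp => by rw [hS', Finset.mem_filter] at hp; exact hp.2.1)
  have hinter : (0 : ℝ) < ((S' ∩ (R ×ˢ Q)).card : ℝ) := by
    by_contra h0
    push Not at h0
    have : (N : ℝ) * ((S' ∩ (R ×ˢ Q)).card : ℝ) ≤ 0 := mul_nonpos_of_nonneg_of_nonpos hN'.le h0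
    linarith
  have hne : (S' ∩ (R ×ˢ Q)).Nonempty := by
    rw [← Finset.card_pos]; exact_mod_cast hinter
  obtain ⟨p0, hp0⟩ := hne
  rw [Finset.mem_inter, Finset.mem_product] at hp0
  obtain ⟨hp0S, hp0R, hp0Q⟩ := hp0
  have hp0S' := hp0S
  rw [hS', Finset.mem_filter] at hp0S'
  obtain ⟨hp0s, ⟨hp0G, hp0H⟩, hp0U⟩ := hp0S'
  have hmidbound : ∀ i ∈ G, ∀ j ∈ H, |∑ l ∈ Mid, w l * x l i * y l j| ≤ s / 8 := by
    intro i hi j hj
    rw [hG, Finset.mem_filter] at hi
    rw [hH, Finset.mem_filter] at hj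
    have h1 : |∑ l ∈ Mid, w l * x l i * y l j| ≤ ∑ l ∈ Mid, w l * ((x l i ^ 2 + y l j ^ 2) / 2) := by
      refine (Finset.abs_sum_le_sum_abs _ _).trans (Finset.sum_le_sum fun l _ => ?_)
      rw [mul_assoc, abs_mul, abs_of_nonneg (hB.nonneg l)]
      refine mul_le_mul_of_nonneg_left ?_ (hB.nonneg l)
      rw [abs_le]
      constructor <;> nlinarith [sq_nonneg (x l i - y l j), sq_nonneg (x l i + y l j)]
    have h2 : ∑ l ∈ Mid, w l * ((x l i ^ 2 + y l j ^ 2) / 2)
        = (∑ l ∈ Mid, w l * x l i ^ 2 + ∑ l ∈ Mid, w l * y l j ^ 2) / 2 := by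
      rw [← Finset.sum_add_distrib, Finset.sum_div]
      refine Finset.sum_congr rfl fun l _ => ?_
      ring
    rw [h2] at h1
    linarith [hi.2.2, hj.2.2]
  have hlow0 : 5 * s / 8 ≤ |∑ l, W l * X l p0.1 * Y l p0.2| := by
    have h1 : s < |B p0.1 p0.2 - A p0.1 p0.2| := by
      rw [hS, Finset.mem_filter] at hp0s; exact hp0s.2
    have h2 : |∑ l ∈ Tl, w l * x l p0.1 * y l p0.2| < s / 4 := by
      by_contra h; push Not at h
      apply hp0U
      rw [hU, Finset.mem_filter]; exact ⟨Finset.mem_univ _, h⟩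
    have h3 := hmidbound _ hp0G _ hp0H
    rw [hdecomp] at h1
    have h4 := abs_add_le (∑ l, W l * X l p0.1 * Y l p0.2
      + ∑ l ∈ Mid, w l * x l p0.1 * y l p0.2) (∑ l ∈ Tl, w l * x l p0.1 * y l p0.2)
    have h5 := abs_add_le (∑ l, W l * X l p0.1 * Y l p0.2)
      (∑ l ∈ Mid, w l * x l p0.1 * y l p0.2)
    linarith
  have hsubU : ((R ×ˢ Q).filter fun p => P p.1 p.2 ≠ 0) ⊆ U := by
    intro p hp
    rw [Finset.mem_filter, Finset.mem_product] at hp
    obtain ⟨⟨hpR, hpQ⟩, hpP⟩ := hp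
    rw [hU, Finset.mem_filter]
    refine ⟨Finset.mem_univ _, ?_⟩
    have h1 := hPD p.1 p.2 hpP
    have h2 := hdecomp p.1 p.2
    rw [h1, sub_self] at h2
    have h3 := hmidbound _ (hRG hpR) _ (hQH hpQ)
    have h4 := hosc p0.1 hp0R p0.2 hp0Q p.1 hpR p.2 hpQ
    have h5 : 5 * s / 8 - s / 8 ≤ |∑ l, W l * X l p.1 * Y l p.2| := by
      have := abs_sub_abs_le_abs_sub (∑ l, W l * X l p0.1 * Y l p0.2)
        (∑ l, W l * X l p.1 * Y l p.2)
      linarith
    have h6 : ∑ l ∈ Tl, w l * x l p.1 * y l p.2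
        = -(∑ l, W l * X l p.1 * Y l p.2 + ∑ l ∈ Mid, w l * x l p.1 * y l p.2) := by linarith
    rw [h6, abs_neg]
    have h7 := abs_sub_abs_le_abs_sub (∑ l, W l * X l p.1 * Y l p.2)
      (-∑ l ∈ Mid, w l * x l p.1 * y l p.2)
    rw [abs_neg, sub_neg_eq_add] at h7
    linarith
  have hRQ : θ / (2 * N) * ((m : ℝ) * n) ≤ R.card * Q.card := by
    have h1 : ((S' ∩ (R ×ˢ Q)).card : ℝ) ≤ (R.card : ℝ) * Q.card := by
      have := Finset.card_le_card (Finset.inter_subset_right (s₁ := S') (s₂ := R ×ˢ Q))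
      rw [Finset.card_product] at this
      exact_mod_cast this
    have h2 : θ / 2 * ((m : ℝ) * n) ≤ N * ((R.card : ℝ) * Q.card) :=
      (hS'card.trans hcardRQ).trans (mul_le_mul_of_nonneg_left h1 hN'.le)
    have h3 : θ / (2 * N) * ((m : ℝ) * n) = (θ / 2 * ((m : ℝ) * n)) / N := by
      field_simp
    rw [h3, div_le_iff₀ hN']
    linarith
  have hfin := hP R Q hRQ
  have h9 : (((R ×ˢ Q).filter fun p => P p.1 p.2 ≠ 0).card : ℝ) ≤ U.card := by
    exact_mod_cast Finset.card_le_card hsubU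
  have h10 : mn * ((m : ℝ) * n) ≤ δ / 2 * ((m : ℝ) * n) :=
    mul_le_mul_of_nonneg_right (min_le_left _ _) hmn'.le
  nlinarith

end Pool.Agent.Q204.NNM
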