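import Mathlib
import Pool.Agent.Q204.NNM.Svd

open Filter Topology Finset

namespace Pool.Agent.Q204.NNM

/-- Pinching inequality in the form needed: if `nuc B ≤ nuc A` and `A` has rank at most `K`, the
part of `B` outside a block is controlled by `B - A` on the block and `A` outside it. -/
theorem pinch {m n : ℕ} (A B : Matrix (Fin m) (Fin n) ℝ) (K : ℕ) (hK : A.rank ≤ K)
    (hnuc : nuc B ≤ nuc A) (hA0 : 0 ≤ nuc A) (G : Finset (Fin m)) (H : Finset (Fin n)) (t : ℝ)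
    (ht : 0 < t) :
    Real.sqrt (∑ p ∈ univ.filter (fun p : Fin m × Fin n => ¬ (p.1 ∈ G ∧ p.2 ∈ H)),
        B p.1 p.2 ^ 2) ≤
      t / 2 * nuc A + Real.sqrt K / t *
        (Real.sqrt (∑ p ∈ univ.filter (fun p : Fin m × Fin n => p.1 ∈ G ∧ p.2 ∈ H),
            (B p.1 p.2 - A p.1 p.2) ^ 2)
          + Real.sqrt (∑ p ∈ univ.filter (fun p : Fin m × Fin n => ¬ (p.1 ∈ G ∧ p.2 ∈ H)),
            A p.1 p.2 ^ 2)) := by
  classical
  set blk := univ.filter (fun p : Fin m × Fin n => p.1 ∈ G ∧ p.2 ∈ H) with hblk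
  set off := univ.filter (fun p : Fin m × Fin n => ¬ (p.1 ∈ G ∧ p.2 ∈ H)) with hoff
  set γ := Real.sqrt (∑ p ∈ off, B p.1 p.2 ^ 2) with hγ
  have hγ0 : 0 ≤ γ := Real.sqrt_nonneg _
  rcases hγ0.eq_or_lt with h0 | hγpos
  · rw [← h0]; positivity
  have hγ2 : γ ^ 2 = ∑ p ∈ off, B p.1 p.2 ^ 2 :=
    Real.sq_sqrt (Finset.sum_nonneg fun p _ => sq_nonneg _)
  obtain ⟨W, hW1, hW2, hW3⟩ := exists_sign A
  have hsplit : ∀ f : Fin m × Fin n → ℝ, ∑ i, ∑ j, f (i, j) = ∑ p ∈ blk, f p + ∑ p ∈ off, f p := by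
    intro f
    rw [hblk, hoff, Finset.sum_filter_add_sum_filter_not, ← Finset.univ_product_univ,
      Finset.sum_product]
  have hWK : ∀ S : Finset (Fin m × Fin n), Real.sqrt (∑ p ∈ S, W p.1 p.2 ^ 2) ≤ Real.sqrt K := by
    intro S
    refine Real.sqrt_le_sqrt ?_
    have h1 : ∑ p ∈ S, W p.1 p.2 ^ 2 ≤ ∑ p : Fin m × Fin n, W p.1 p.2 ^ 2 :=
      Finset.sum_le_sum_of_subset_of_nonneg (Finset.subset_univ _) fun p _ _ => sq_nonneg _
    rw [← Finset.univ_product_univ, Finset.sum_product, hW3] at h1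
    exact h1.trans (by exact_mod_cast hK)
  -- the test matrix
  set Z : Matrix (Fin m) (Fin n) ℝ := fun i j =>
    if i ∈ G ∧ j ∈ H then W i j else t * (B i j / γ) with hZ
  have hZb : ∀ (y : Fin m → ℝ) (x : Fin n → ℝ), ∑ i, ∑ j, y i * Z i j * x j
      ≤ Real.sqrt (1 + t ^ 2) * (Real.sqrt (∑ i, y i ^ 2) * Real.sqrt (∑ j, x j ^ 2)) := by
    intro y x
    rw [hsplit (fun p => y p.1 * Z p.1 p.2 * x p.2)]
    have e1 : ∑ p ∈ blk, y p.1 * Z p.1 p.2 * x p.2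
        = ∑ i, ∑ j, (if i ∈ G then y i else 0) * W i j * (if j ∈ H then x j else 0) := by
      rw [← Finset.sum_product', Finset.univ_product_univ, hblk, Finset.sum_filter]
      refine Finset.sum_congr rfl fun p _ => ?_
      by_cases h1 : p.1 ∈ G <;> by_cases h2 : p.2 ∈ H <;> simp [hZ, h1, h2]
    have e2 := hW1 (fun i => if i ∈ G then y i else 0) (fun j => if j ∈ H then x j else 0)
    rw [← e1] at e2
    set yG := ∑ i, (if i ∈ G then y i else 0) ^ 2 with hyG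
    set xH := ∑ j, (if j ∈ H then x j else 0) ^ 2 with hxH
    have hyG0 : 0 ≤ yG := Finset.sum_nonneg fun _ _ => sq_nonneg _
    have hxH0 : 0 ≤ xH := Finset.sum_nonneg fun _ _ => sq_nonneg _
    have e3 : ∑ p ∈ off, y p.1 * Z p.1 p.2 * x p.2
        = t * ∑ p ∈ off, (B p.1 p.2 / γ) * (y p.1 * x p.2) := by
      rw [Finset.mul_sum]
      refine Finset.sum_congr rfl fun p hp => ?_
      rw [hoff, Finset.mem_filter] at hp
      simp only [hZ, if_neg hp.2]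
      ring
    have e4 : ∑ p ∈ off, (B p.1 p.2 / γ) * (y p.1 * x p.2)
        ≤ Real.sqrt (∑ p ∈ off, (B p.1 p.2 / γ) ^ 2) * Real.sqrt (∑ p ∈ off, (y p.1 * x p.2) ^ 2) :=
      Real.sum_mul_le_sqrt_mul_sqrt _ _ _
    have e5 : ∑ p ∈ off, (B p.1 p.2 / γ) ^ 2 = 1 := by
      simp only [div_pow]
      rw [← Finset.sum_div, ← hγ2, div_self (by positivity)]
    rw [e5, Real.sqrt_one, one_mul] at e4
    have e6 : ∑ p ∈ off, (y p.1 * x p.2) ^ 2 = (∑ i, y i ^ 2) * (∑ j, x j ^ 2) - yG * xH := by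
      have h1 := hsplit (fun p => (y p.1 * x p.2) ^ 2)
      have h2 : ∑ i, ∑ j, (y i * x j) ^ 2 = (∑ i, y i ^ 2) * (∑ j, x j ^ 2) := by
        rw [Finset.sum_mul_sum]
        refine Finset.sum_congr rfl fun i _ => Finset.sum_congr rfl fun j _ => ?_
        ring
      have h3 : ∑ p ∈ blk, (y p.1 * x p.2) ^ 2 = yG * xH := by
        rw [hyG, hxH, Finset.sum_mul_sum, ← Finset.sum_product', Finset.univ_product_univ, hblk,
          Finset.sum_filter]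
        refine Finset.sum_congr rfl fun p _ => ?_
        by_cases h1 : p.1 ∈ G <;> by_cases h2 : p.2 ∈ H <;> simp [h1, h2, mul_pow]
      simp only at h1
      rw [h2, h3] at h1
      linarith
    rw [e6] at e4
    rw [e3]
    set q := (∑ i, y i ^ 2) * (∑ j, x j ^ 2) with hq
    have hq0 : 0 ≤ q := mul_nonneg (Finset.sum_nonneg fun _ _ => sq_nonneg _)
      (Finset.sum_nonneg fun _ _ => sq_nonneg _)
    have hqp : 0 ≤ q - yG * xH := by
      rw [← e6]; exact Finset.sum_nonneg fun _ _ => sq_nonneg _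
    rw [← Real.sqrt_mul (Finset.sum_nonneg fun _ _ => sq_nonneg _)]
    rw [← Real.sqrt_mul hyG0] at e2
    rw [← hq]
    set p1 := Real.sqrt (yG * xH) with hp1
    set r1 := Real.sqrt (q - yG * xH) with hr1
    have hp2 : p1 ^ 2 = yG * xH := Real.sq_sqrt (mul_nonneg hyG0 hxH0)
    have hr2 : r1 ^ 2 = q - yG * xH := Real.sq_sqrt hqp
    have hfin : p1 + t * r1 ≤ Real.sqrt (1 + t ^ 2) * Real.sqrt q := by
      rw [← Real.sqrt_mul (by positivity)]
      refine Real.le_sqrt_of_sq_le ?_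
      have : q = p1 ^ 2 + r1 ^ 2 := by rw [hp2, hr2]; ring
      rw [this]
      nlinarith [sq_nonneg (r1 - t * p1)]
    have := mul_le_mul_of_nonneg_left e4 ht.le
    linarith
  have h1 := nuc_ge B Z (Real.sqrt (1 + t ^ 2)) hZb (Real.sqrt_nonneg _)
  have h2 : Real.sqrt (1 + t ^ 2) * nuc B ≤ (1 + t ^ 2 / 2) * nuc A := by
    have h3 : Real.sqrt (1 + t ^ 2) ≤ 1 + t ^ 2 / 2 := by
      rw [Real.sqrt_le_left (by positivity)]
      nlinarith [sq_nonneg (t ^ 2)]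
    exact mul_le_mul h3 hnuc (by
      unfold nuc; exact Finset.sum_nonneg fun _ _ => Real.sqrt_nonneg _) (by positivity)
  rw [hsplit (fun p => B p.1 p.2 * Z p.1 p.2)] at h1
  have h4 : ∑ p ∈ off, B p.1 p.2 * Z p.1 p.2 = t * γ := by
    have : ∑ p ∈ off, B p.1 p.2 * Z p.1 p.2 = t / γ * ∑ p ∈ off, B p.1 p.2 ^ 2 := by
      rw [Finset.mul_sum]
      refine Finset.sum_congr rfl fun p hp => ?_
      rw [hoff, Finset.mem_filter] at hp
      simp only [hZ, if_neg hp.2]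
      field_simp
    rw [this, ← hγ2]
    field_simp
  have h5 : ∑ p ∈ blk, B p.1 p.2 * Z p.1 p.2
      = ∑ p ∈ blk, (B p.1 p.2 - A p.1 p.2) * W p.1 p.2 + nuc A
        - ∑ p ∈ off, A p.1 p.2 * W p.1 p.2 := by
    rw [← hW2, hsplit (fun p => A p.1 p.2 * W p.1 p.2)]
    have : ∑ p ∈ blk, B p.1 p.2 * Z p.1 p.2 = ∑ p ∈ blk, (B p.1 p.2 - A p.1 p.2) * W p.1 p.2
        + ∑ p ∈ blk, A p.1 p.2 * W p.1 p.2 := by
      rw [← Finset.sum_add_distrib]
      refine Finset.sum_congr rfl fun p hp => ?_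
      rw [hblk, Finset.mem_filter] at hp
      simp only [hZ, if_pos hp.2]
      ring
    rw [this]
    ring
  have h6 : -∑ p ∈ blk, (B p.1 p.2 - A p.1 p.2) * W p.1 p.2
      ≤ Real.sqrt K * Real.sqrt (∑ p ∈ blk, (B p.1 p.2 - A p.1 p.2) ^ 2) := by
    rw [← Finset.sum_neg_distrib]
    calc ∑ p ∈ blk, -((B p.1 p.2 - A p.1 p.2) * W p.1 p.2)
        = ∑ p ∈ blk, (-(B p.1 p.2 - A p.1 p.2)) * W p.1 p.2 := by
          refine Finset.sum_congr rfl fun p _ => ?_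
          ring
      _ ≤ Real.sqrt (∑ p ∈ blk, (-(B p.1 p.2 - A p.1 p.2)) ^ 2)
          * Real.sqrt (∑ p ∈ blk, W p.1 p.2 ^ 2) := Real.sum_mul_le_sqrt_mul_sqrt _ _ _
      _ = Real.sqrt (∑ p ∈ blk, (B p.1 p.2 - A p.1 p.2) ^ 2)
          * Real.sqrt (∑ p ∈ blk, W p.1 p.2 ^ 2) := by
          simp only [neg_sq]
      _ ≤ Real.sqrt (∑ p ∈ blk, (B p.1 p.2 - A p.1 p.2) ^ 2) * Real.sqrt K :=
          mul_le_mul_of_nonneg_left (hWK blk) (Real.sqrt_nonneg _)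
      _ = _ := mul_comm _ _
  have h7 : ∑ p ∈ off, A p.1 p.2 * W p.1 p.2
      ≤ Real.sqrt K * Real.sqrt (∑ p ∈ off, A p.1 p.2 ^ 2) := by
    calc ∑ p ∈ off, A p.1 p.2 * W p.1 p.2 ≤ Real.sqrt (∑ p ∈ off, A p.1 p.2 ^ 2)
          * Real.sqrt (∑ p ∈ off, W p.1 p.2 ^ 2) := Real.sum_mul_le_sqrt_mul_sqrt _ _ _
      _ ≤ Real.sqrt (∑ p ∈ off, A p.1 p.2 ^ 2) * Real.sqrt K :=
          mul_le_mul_of_nonneg_left (hWK off) (Real.sqrt_nonneg _)
      _ = _ := mul_comm _ _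
  have h8 : t * γ ≤ t * (t / 2 * nuc A + Real.sqrt K / t *
        (Real.sqrt (∑ p ∈ blk, (B p.1 p.2 - A p.1 p.2) ^ 2)
          + Real.sqrt (∑ p ∈ off, A p.1 p.2 ^ 2))) := by
    have e : t * (t / 2 * nuc A + Real.sqrt K / t *
        (Real.sqrt (∑ p ∈ blk, (B p.1 p.2 - A p.1 p.2) ^ 2)
          + Real.sqrt (∑ p ∈ off, A p.1 p.2 ^ 2)))
        = t ^ 2 / 2 * nuc A + Real.sqrt K * (Real.sqrt (∑ p ∈ blk, (B p.1 p.2 - A p.1 p.2) ^ 2)
          + Real.sqrt (∑ p ∈ off, A p.1 p.2 ^ 2)) := by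
      field_simp
    rw [e]
    nlinarith
  exact le_of_mul_le_mul_left h8 ht

end Pool.Agent.Q204.NNM
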