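import Mathlib
import Pool.Agent.Q204.NNM.Core
import Pool.Agent.Q204.NNM.Fin

open Filter Topology Finset

namespace Pool.Agent.Q204.NNM

/-- The normalised Frobenius norm. -/
noncomputable def fbar {m n : ℕ} (A : Matrix (Fin m) (Fin n) ℝ) : ℝ :=
  Real.sqrt ((∑ i, ∑ j, A i j ^ 2) / ((m : ℝ) * n))

/-- Stable recovery of low rank matrices. -/
def StableRecovery (m n : ℕ → ℕ) (P : ∀ k, Matrix (Fin (m k)) (Fin (n k)) ℝ) : Prop :=
  ∀ (K : ℕ) (L ε : ℝ), 0 < L → 0 < ε → ∃ δ : ℝ, 0 < δ ∧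
    ∀ A B : ∀ k, Matrix (Fin (m k)) (Fin (n k)) ℝ,
      (∀ k, (A k).rank ≤ K ∧ (B k).rank ≤ K ∧ (∀ i j, |A k i j| ≤ L) ∧ ∀ i j, |B k i j| ≤ L) →
      limsup (fun k => fbar ((A k - B k).hadamard (P k))) atTop ≤ δ →
      limsup (fun k => fbar (A k - B k)) atTop ≤ ε

/-- `B` minimises the nuclear norm among the matrices agreeing with `A` where `P` reveals. -/
def IsNuclearMinimiser {m n : ℕ} (A P B : Matrix (Fin m) (Fin n) ℝ) : Prop :=
  B.hadamard P = A.hadamard P ∧
    ∀ B' : Matrix (Fin m) (Fin n) ℝ, B'.hadamard P = A.hadamard P → nuc B ≤ nuc B'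

theorem fbar_nonneg {m n : ℕ} (A : Matrix (Fin m) (Fin n) ℝ) : 0 ≤ fbar A := Real.sqrt_nonneg _

theorem limsup_le_aux (u : ℕ → ℝ) (h0 : ∀ k, 0 ≤ u k) (a : ℝ) (h : ∀ᶠ k in atTop, u k ≤ a) :
    limsup u atTop ≤ a := by
  refine limsup_le_of_le ?_ h
  exact IsBoundedUnder.isCoboundedUnder_le ⟨0, Filter.eventually_map.2 (Eventually.of_forall h0)⟩

theorem sr1 (m n : ℕ → ℕ) (hm : Tendsto m atTop atTop) (hn : Tendsto n atTop atTop)
    (P : ∀ k, Matrix (Fin (m k)) (Fin (n k)) ℝ) (hP : ∀ k i j, P k i j = 0 ∨ P k i j = 1)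
    (hS : StableRecovery m n P) (ρ : ℝ) (hρ : 0 < ρ) :
    ∃ δ > 0, ∀ᶠ k in atTop, ∀ (R : Finset (Fin (m k))) (Q : Finset (Fin (n k))),
      ρ * ((m k : ℝ) * n k) ≤ R.card * Q.card →
        δ * ((m k : ℝ) * n k) ≤ (((R ×ˢ Q).filter fun p => P k p.1 p.2 ≠ 0).card : ℝ) := by
  classical
  obtain ⟨δ, hδ, h⟩ := hS 1 1 (Real.sqrt ρ / 2) one_pos (by positivity)
  refine ⟨δ ^ 2, by positivity, ?_⟩
  by_contra hcon
  rw [Filter.not_eventually] at hcon
  -- the bad indices
  let bad : ℕ → Prop := fun k => ∃ (R : Finset (Fin (m k))) (Q : Finset (Fin (n k))),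
    ρ * ((m k : ℝ) * n k) ≤ R.card * Q.card ∧
      (((R ×ˢ Q).filter fun p => P k p.1 p.2 ≠ 0).card : ℝ) < δ ^ 2 * ((m k : ℝ) * n k)
  have hbad : ∃ᶠ k in atTop, bad k := by
    refine hcon.mono fun k hk => ?_
    push Not at hk
    obtain ⟨R, Q, h1, h2⟩ := hk
    exact ⟨R, Q, h1, h2⟩
  have hex : ∀ k, ∃ (R : Finset (Fin (m k))) (Q : Finset (Fin (n k))),
      (bad k → ρ * ((m k : ℝ) * n k) ≤ R.card * Q.card) ∧
      ((((R ×ˢ Q).filter fun p => P k p.1 p.2 ≠ 0).card : ℝ) ≤ δ ^ 2 * ((m k : ℝ) * n k)) := by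
    intro k
    by_cases hb : bad k
    · obtain ⟨R, Q, h1, h2⟩ := hb
      exact ⟨R, Q, fun _ => h1, h2.le⟩
    · refine ⟨∅, ∅, fun h => absurd h hb, ?_⟩
      simp; positivity
  choose R Q h1 h2 using hex
  let A : ∀ k, Matrix (Fin (m k)) (Fin (n k)) ℝ := fun k =>
    Matrix.vecMulVec (fun i => if i ∈ R k then (1 : ℝ) else 0) (fun j => if j ∈ Q k then (1 : ℝ) else 0)
  have hAij : ∀ k i j, A k i j = if i ∈ R k ∧ j ∈ Q k then (1 : ℝ) else 0 := by
    intro k i j
    show (if i ∈ R k then (1 : ℝ) else 0) * (if j ∈ Q k then (1 : ℝ) else 0) = _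
    by_cases h1 : i ∈ R k <;> by_cases h2 : j ∈ Q k <;> simp [h1, h2]
  have hmn : ∀ᶠ k in atTop, 0 < m k ∧ 0 < n k :=
    (hm.eventually_gt_atTop 0).and (hn.eventually_gt_atTop 0)
  have hL := h A (fun k => 0) ?_ ?_
  · -- contradiction
    have hbdd : IsBoundedUnder (· ≤ ·) atTop (fun k => fbar (A k - 0)) := by
      refine ⟨1, Filter.eventually_map.2 ?_⟩
      filter_upwards [hmn] with k hk
      unfold fbar
      have hm' : (0 : ℝ) < m k := by exact_mod_cast hk.1
      have hn' : (0 : ℝ) < n k := by exact_mod_cast hk.2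
      refine Real.sqrt_le_one.2 ?_
      rw [div_le_one (by positivity)]
      calc ∑ i, ∑ j, (A k - 0) i j ^ 2 ≤ ∑ _i : Fin (m k), ∑ _j : Fin (n k), (1 : ℝ) := by
            refine Finset.sum_le_sum fun i _ => Finset.sum_le_sum fun j _ => ?_
            rw [sub_zero, hAij]
            split_ifs <;> simp
        _ = (m k : ℝ) * n k := by simp
    have hlt : limsup (fun k => fbar (A k - 0)) atTop < Real.sqrt ρ :=
      lt_of_le_of_lt hL (by have := Real.sqrt_pos.2 hρ; linarith)
    have hev := Filter.eventually_lt_of_limsup_lt hlt hbdd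
    obtain ⟨k, hk1, hk2, hk3⟩ := (hbad.and_eventually (hev.and hmn)).exists
    have hm' : (0 : ℝ) < m k := by exact_mod_cast hk3.1
    have hn' : (0 : ℝ) < n k := by exact_mod_cast hk3.2
    have h5 := h1 k hk1
    have h6 : ∑ i, ∑ j, (A k - 0) i j ^ 2 = (R k).card * (Q k).card := by
      rw [← Nat.cast_mul, ← Finset.card_product]
      have : ((R k) ×ˢ (Q k)) = univ.filter (fun p : Fin (m k) × Fin (n k) => p.1 ∈ R k ∧ p.2 ∈ Q k) := by
        ext p; simp
      rw [this, Finset.card_filter]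
      push_cast
      rw [← Finset.univ_product_univ, Finset.sum_product]
      refine Finset.sum_congr rfl fun i _ => Finset.sum_congr rfl fun j _ => ?_
      rw [sub_zero, hAij]
      split_ifs <;> simp
    have h7 : Real.sqrt ρ ≤ fbar (A k - 0) := by
      unfold fbar
      refine Real.sqrt_le_sqrt ?_
      rw [h6, le_div_iff₀ (by positivity)]
      exact h5
    linarith
  · intro k
    refine ⟨Matrix.rank_vecMulVec_le _ _, by simp, ?_, by simp⟩
    intro i j
    rw [hAij]
    split_ifs <;> simp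
  · refine limsup_le_aux _ (fun k => fbar_nonneg _) _ ?_
    filter_upwards [hmn] with k hk
    have hm' : (0 : ℝ) < m k := by exact_mod_cast hk.1
    have hn' : (0 : ℝ) < n k := by exact_mod_cast hk.2
    unfold fbar
    rw [Real.sqrt_le_left hδ.le, div_le_iff₀ (by positivity)]
    refine le_trans (le_of_eq ?_) (h2 k)
    have : ((R k ×ˢ Q k).filter fun p => P k p.1 p.2 ≠ 0)
        = univ.filter (fun p : Fin (m k) × Fin (n k) => (p.1 ∈ R k ∧ p.2 ∈ Q k) ∧ P k p.1 p.2 ≠ 0) := by
      ext p; simp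
    rw [this, Finset.card_filter]
    push_cast
    rw [← Finset.univ_product_univ, Finset.sum_product]
    refine Finset.sum_congr rfl fun i _ => Finset.sum_congr rfl fun j _ => ?_
    rw [sub_zero, Matrix.hadamard_apply, hAij]
    rcases hP k i j with h0 | h0
    · simp [h0]
    · by_cases hh : i ∈ R k ∧ j ∈ Q k
      · simp [h0, hh]
      · simp [h0, hh]

theorem null (m n : ℕ → ℕ) (hm : Tendsto m atTop atTop) (hn : Tendsto n atTop atTop)
    (P : ∀ k, Matrix (Fin (m k)) (Fin (n k)) ℝ) (hP : ∀ k i j, P k i j = 0 ∨ P k i j = 1)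
    (hS : StableRecovery m n P) (A B : ∀ k, Matrix (Fin (m k)) (Fin (n k)) ℝ) (K : ℕ)
    (hK : ∀ k, (A k).rank ≤ K) (hPD : ∀ k i j, P k i j ≠ 0 → B k i j = A k i j)
    (C : ℝ) (hC : 0 ≤ C) (s θ : ℝ) (hs : 0 < s) (hθ : 0 < θ) :
    ∀ j : ℕ, ∀ a > 0, ∀ᶠ k in atTop, ∀ (w : Fin (n k) → ℝ) (x : Fin (n k) → Fin (m k) → ℝ)
      (y : Fin (n k) → Fin (n k) → ℝ) (w' : Fin (n k) → ℝ) (x' : Fin (n k) → Fin (m k) → ℝ)
      (y' : Fin (n k) → Fin (n k) → ℝ), Feat (B k) w x y → Feat (A k) w' x' y' →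
      ∑ l, w l ≤ C → ∑ l, w' l ≤ C →
      ∑ l ∈ univ.filter (fun l => w l < a), w l ≤ j * (θ * (s / 8)) →
      ((univ.filter fun p : Fin (m k) × Fin (n k) => s < |B k p.1 p.2 - A k p.1 p.2|).card : ℝ)
        ≤ 5 * θ * ((m k : ℝ) * n k) := by
  classical
  have hmn : ∀ᶠ k in atTop, 0 < m k ∧ 0 < n k :=
    (hm.eventually_gt_atTop 0).and (hn.eventually_gt_atTop 0)
  -- one step
  have hstep : ∀ a > 0, ∃ b > 0, b ≤ a ∧ ∀ᶠ k in atTop, ∀ (w : Fin (n k) → ℝ)
      (x : Fin (n k) → Fin (m k) → ℝ)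
      (y : Fin (n k) → Fin (n k) → ℝ) (w' : Fin (n k) → ℝ) (x' : Fin (n k) → Fin (m k) → ℝ)
      (y' : Fin (n k) → Fin (n k) → ℝ), Feat (B k) w x y → Feat (A k) w' x' y' →
      ∑ l, w l ≤ C → ∑ l, w' l ≤ C →
      ∑ l ∈ univ.filter (fun l => b ≤ w l ∧ w l < a), w l ≤ θ * (s / 8) →
      ((univ.filter fun p : Fin (m k) × Fin (n k) => s < |B k p.1 p.2 - A k p.1 p.2|).card : ℝ)
        ≤ 5 * θ * ((m k : ℝ) * n k) := by
    intro a ha
    obtain ⟨ρ, hρ, hρ'⟩ := step C s θ a K hC hs hθ ha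
    obtain ⟨δ, hδ, hev⟩ := sr1 m n hm hn P hP hS ρ hρ
    obtain ⟨b, hb, hba, hb'⟩ := hρ' δ hδ
    refine ⟨b, hb, hba, ?_⟩
    filter_upwards [hmn, hev] with k hk hk2
    intro w x y w' x' y' hB hA hwC hwC' hmid
    exact hb' hk.1 hk.2 (P k) (B k) (A k) w x y w' x' y' hB hA hwC hwC' (hK k) hk2 hmid (hPD k)
  intro j
  induction j with
  | zero =>
    intro a ha
    obtain ⟨b, hb, hba, hev⟩ := hstep a ha
    filter_upwards [hev] with k hk
    intro w x y w' x' y' hB hA hwC hwC' hsum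
    refine hk w x y w' x' y' hB hA hwC hwC' (le_trans (le_trans ?_ hsum) ?_)
    · refine Finset.sum_le_sum_of_subset_of_nonneg ?_ fun l _ _ => hB.nonneg l
      intro l hl
      rw [Finset.mem_filter] at hl ⊢
      exact ⟨hl.1, hl.2.2⟩
    · push_cast; rw [zero_mul]; positivity
  | succ j ih =>
    intro a ha
    obtain ⟨b, hb, hba, hev⟩ := hstep a ha
    filter_upwards [hev, ih b hb] with k hk hk2
    intro w x y w' x' y' hB hA hwC hwC' hsum
    by_cases hmid : ∑ l ∈ univ.filter (fun l => b ≤ w l ∧ w l < a), w l ≤ θ * (s / 8)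
    · exact hk w x y w' x' y' hB hA hwC hwC' hmid
    · push Not at hmid
      refine hk2 w x y w' x' y' hB hA hwC hwC' ?_
      have hsplit : ∑ l ∈ univ.filter (fun l => w l < a), w l
          = ∑ l ∈ univ.filter (fun l => b ≤ w l ∧ w l < a), w l
            + ∑ l ∈ univ.filter (fun l => w l < b), w l := by
        rw [← Finset.sum_filter_add_sum_filter_not (univ.filter (fun l => w l < a))
          (fun l => b ≤ w l), Finset.filter_filter, Finset.filter_filter]
        congr 1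
        · refine Finset.sum_congr ?_ fun _ _ => rfl
          ext l; simp [and_comm]
        · refine Finset.sum_congr ?_ fun _ _ => rfl
          ext l
          simp only [Finset.mem_filter, Finset.mem_univ, true_and, not_le]
          exact ⟨fun h => h.2, fun h => ⟨lt_of_lt_of_le h hba, h⟩⟩
      rw [hsplit] at hsum
      push_cast at hsum
      linarith

theorem nuc_nonneg {m n : ℕ} (A : Matrix (Fin m) (Fin n) ℝ) : 0 ≤ nuc A :=
  Finset.sum_nonneg fun _ _ => Real.sqrt_nonneg _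

theorem main (m n : ℕ → ℕ) (hm : Tendsto m atTop atTop) (hn : Tendsto n atTop atTop)
    (P : ∀ k, Matrix (Fin (m k)) (Fin (n k)) ℝ) (hP : ∀ k i j, P k i j = 0 ∨ P k i j = 1)
    (hS : StableRecovery m n P) (A B : ∀ k, Matrix (Fin (m k)) (Fin (n k)) ℝ) (K : ℕ) (L : ℝ)
    (hA : ∀ k, (A k).rank ≤ K ∧ ∀ i j, |A k i j| ≤ L)
    (hB : ∀ k, IsNuclearMinimiser (A k) (P k) (B k)) :
    Tendsto (fun k => fbar (B k - A k)) atTop (𝓝 0) := by
  classical
  have hmn : ∀ᶠ k in atTop, 0 < m k ∧ 0 < n k :=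
    (hm.eventually_gt_atTop 0).and (hn.eventually_gt_atTop 0)
  set L1 : ℝ := |L| + 1 with hL1
  have hL1pos : 0 < L1 := by positivity
  have hA1 : ∀ k i j, |A k i j| ≤ L1 := fun k i j =>
    ((hA k).2 i j).trans (by rw [hL1]; linarith [le_abs_self L])
  set C : ℝ := Real.sqrt K * L1 with hCdef
  have hC : 0 ≤ C := by positivity
  have hnucA : ∀ k, nuc (A k) ≤ C * Real.sqrt ((m k : ℝ) * n k) := by
    intro k
    have h1 := nuc_le (A k) K (hA k).1
    have h2 : Real.sqrt (∑ i, ∑ j, A k i j ^ 2) ≤ L1 * Real.sqrt ((m k : ℝ) * n k) := by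
      rw [Real.sqrt_le_left (by positivity), mul_pow, Real.sq_sqrt (by positivity)]
      calc ∑ i, ∑ j, A k i j ^ 2 ≤ ∑ _i : Fin (m k), ∑ _j : Fin (n k), L1 ^ 2 := by
            refine Finset.sum_le_sum fun i _ => Finset.sum_le_sum fun j _ => ?_
            rw [← sq_abs]
            exact pow_le_pow_left₀ (abs_nonneg _) (hA1 k i j) 2
        _ = L1 ^ 2 * ((m k : ℝ) * n k) := by simp; ring
    calc nuc (A k) ≤ _ := h1
      _ ≤ Real.sqrt K * (L1 * Real.sqrt ((m k : ℝ) * n k)) :=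
        mul_le_mul_of_nonneg_left h2 (Real.sqrt_nonneg _)
      _ = _ := by rw [hCdef]; ring
  have hBA : ∀ k, nuc (B k) ≤ nuc (A k) := fun k => (hB k).2 (A k) rfl
  have hPD : ∀ k i j, P k i j ≠ 0 → B k i j = A k i j := by
    intro k i j h
    have h1 := congrFun (congrFun (hB k).1 i) j
    rw [Matrix.hadamard_apply, Matrix.hadamard_apply] at h1
    exact mul_right_cancel₀ h h1
  rw [Metric.tendsto_atTop']
  intro ε hε
  -- parameters
  set t : ℝ := ε / (4 * (C + 1)) with ht
  have htpos : 0 < t := by positivity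
  set q : ℝ := ε / (8 * (Real.sqrt K / t + 1)) with hq
  have hqpos : 0 < q := by positivity
  have hqε : q ≤ ε / 8 := by
    rw [hq]
    refine div_le_div_of_nonneg_left hε.le (by norm_num) ?_
    have : 0 ≤ Real.sqrt K / t := by positivity
    linarith
  have hKq : Real.sqrt K / t * q ≤ ε / 8 := by
    rw [hq]
    have : 0 ≤ Real.sqrt K / t := by positivity
    rw [mul_div_assoc', div_le_div_iff₀ (by positivity) (by norm_num)]
    nlinarith
  set s : ℝ := q / 4 with hs
  have hspos : 0 < s := by positivity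
  set θ : ℝ := (q / (2 * L1)) ^ 2 / 2 with hθ
  have hθpos : 0 < θ := by positivity
  set D : ℝ := C / θ + L1 with hD
  have hDpos : 0 < D := by positivity
  set θ' : ℝ := s ^ 2 / (5 * D ^ 2) with hθ'
  have hθ'pos : 0 < θ' := by positivity
  set J : ℕ := ⌈C / (θ' * (s / 8))⌉₊ with hJ
  have hJC : C ≤ J * (θ' * (s / 8)) := by
    have := Nat.le_ceil (C / (θ' * (s / 8)))
    rw [div_le_iff₀ (by positivity)] at this
    exact this
  have hev := null m n hm hn P hP hS A B K (fun k => (hA k).1) hPD C hC s θ' hspos hθ'pos J 1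
    one_pos
  have hfin : ∀ᶠ k in atTop, dist (fbar (B k - A k)) 0 < ε := by
    filter_upwards [hmn, hev] with k hk hnull
    have hm' : (0 : ℝ) < m k := by exact_mod_cast hk.1
    have hn' : (0 : ℝ) < n k := by exact_mod_cast hk.2
    set μ : ℝ := (m k : ℝ) * n k with hμ
    have hμpos : 0 < μ := by positivity
    have hsμ : 0 < Real.sqrt μ := Real.sqrt_pos.2 hμpos
    have hsμ2 : Real.sqrt μ ^ 2 = μ := Real.sq_sqrt hμpos.le
    obtain ⟨w, x, y, hBf⟩ := exists_feat hk.1 hk.2 (B k)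
    obtain ⟨w', x', y', hAf⟩ := exists_feat hk.1 hk.2 (A k)
    have hwC' : ∑ l, w' l ≤ C := by
      have h1 := hAf.sum
      have h2 := hnucA k
      rw [← h1, mul_comm C] at h2
      exact le_of_mul_le_mul_left h2 hsμ
    have hwC : ∑ l, w l ≤ C := by
      have h1 := hBf.sum
      have h2 := (hBA k).trans (hnucA k)
      rw [← h1, mul_comm C] at h2
      exact le_of_mul_le_mul_left h2 hsμ
    have hcount := hnull w x y w' x' y' hBf hAf hwC hwC' (by
      refine le_trans ?_ (hwC.trans hJC)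
      exact Finset.sum_le_sum_of_subset_of_nonneg (Finset.subset_univ _) fun l _ _ => hBf.nonneg l)
    -- good rows and columns
    set G := univ.filter fun i : Fin (m k) => ∑ l, w l * x l i ^ 2 ≤ C / θ with hG
    set H := univ.filter fun j : Fin (n k) => ∑ l, w l * y l j ^ 2 ≤ C / θ with hH
    have hrow : ((univ.filter fun i : Fin (m k) => ¬ (∑ l, w l * x l i ^ 2 ≤ C / θ)).card : ℝ)
        ≤ θ * m k := by
      have h2 : ∑ i, ∑ l, w l * x l i ^ 2 ≤ C * m k := by
        rw [Finset.sum_comm]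
        calc ∑ l, ∑ i, w l * x l i ^ 2 ≤ ∑ l, w l * m k := by
              refine Finset.sum_le_sum fun l _ => ?_
              rw [← Finset.mul_sum]
              exact mul_le_mul_of_nonneg_left (hBf.hx l) (hBf.nonneg l)
          _ = (∑ l, w l) * m k := by rw [Finset.sum_mul]
          _ ≤ C * m k := mul_le_mul_of_nonneg_right hwC hm'.le
      rcases hC.eq_or_lt with h0 | hCpos
      · -- C = 0
        have hz : ∀ i : Fin (m k), ∑ l, w l * x l i ^ 2 ≤ C / θ := by
          intro i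
          have h3 : ∑ i, ∑ l, w l * x l i ^ 2 ≤ 0 := by rw [← h0] at h2; simpa using h2
          have h4 : ∑ l, w l * x l i ^ 2 ≤ ∑ i, ∑ l, w l * x l i ^ 2 :=
            Finset.single_le_sum (f := fun i => ∑ l, w l * x l i ^ 2)
              (fun i _ => Finset.sum_nonneg fun l _ => mul_nonneg (hBf.nonneg l) (sq_nonneg _))
              (Finset.mem_univ i)
          have h5 : 0 ≤ C / θ := by positivity
          linarith
        rw [Finset.filter_false_of_mem (fun i _ => not_not.2 (hz i))]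
        simp; positivity
      · have h1 := markov univ (fun i : Fin (m k) => ∑ l, w l * x l i ^ 2)
          (fun i _ => Finset.sum_nonneg fun l _ => mul_nonneg (hBf.nonneg l) (sq_nonneg _)) (C / θ)
          (fun i => ¬ (∑ l, w l * x l i ^ 2 ≤ C / θ)) (fun i _ h => (not_le.1 h).le)
        have h3 := h1.trans h2
        have h4 : ((univ.filter fun i : Fin (m k) => ¬ (∑ l, w l * x l i ^ 2 ≤ C / θ)).card : ℝ)
            * (C / θ) ≤ θ * m k * (C / θ) := by
          refine h3.trans (le_of_eq ?_)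
          field_simp
        exact le_of_mul_le_mul_right h4 (by positivity)
    have hcol : ((univ.filter fun j : Fin (n k) => ¬ (∑ l, w l * y l j ^ 2 ≤ C / θ)).card : ℝ)
        ≤ θ * n k := by
      have h2 : ∑ i, ∑ l, w l * y l i ^ 2 ≤ C * n k := by
        rw [Finset.sum_comm]
        calc ∑ l, ∑ i, w l * y l i ^ 2 ≤ ∑ l, w l * n k := by
              refine Finset.sum_le_sum fun l _ => ?_
              rw [← Finset.mul_sum]
              exact mul_le_mul_of_nonneg_left (hBf.hy l) (hBf.nonneg l)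
          _ = (∑ l, w l) * n k := by rw [Finset.sum_mul]
          _ ≤ C * n k := mul_le_mul_of_nonneg_right hwC hn'.le
      rcases hC.eq_or_lt with h0 | hCpos
      · have hz : ∀ i : Fin (n k), ∑ l, w l * y l i ^ 2 ≤ C / θ := by
          intro i
          have h3 : ∑ i, ∑ l, w l * y l i ^ 2 ≤ 0 := by rw [← h0] at h2; simpa using h2
          have h4 : ∑ l, w l * y l i ^ 2 ≤ ∑ i, ∑ l, w l * y l i ^ 2 :=
            Finset.single_le_sum (f := fun i => ∑ l, w l * y l i ^ 2)
              (fun i _ => Finset.sum_nonneg fun l _ => mul_nonneg (hBf.nonneg l) (sq_nonneg _))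
              (Finset.mem_univ i)
          have h5 : 0 ≤ C / θ := by positivity
          linarith
        rw [Finset.filter_false_of_mem (fun i _ => not_not.2 (hz i))]
        simp; positivity
      · have h1 := markov univ (fun i : Fin (n k) => ∑ l, w l * y l i ^ 2)
          (fun i _ => Finset.sum_nonneg fun l _ => mul_nonneg (hBf.nonneg l) (sq_nonneg _)) (C / θ)
          (fun i => ¬ (∑ l, w l * y l i ^ 2 ≤ C / θ)) (fun i _ h => (not_le.1 h).le)
        have h3 := h1.trans h2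
        have h4 : ((univ.filter fun i : Fin (n k) => ¬ (∑ l, w l * y l i ^ 2 ≤ C / θ)).card : ℝ)
            * (C / θ) ≤ θ * n k * (C / θ) := by
          refine h3.trans (le_of_eq ?_)
          field_simp
        exact le_of_mul_le_mul_right h4 (by positivity)
    set blk := univ.filter (fun p : Fin (m k) × Fin (n k) => p.1 ∈ G ∧ p.2 ∈ H) with hblk
    set off := univ.filter (fun p : Fin (m k) × Fin (n k) => ¬ (p.1 ∈ G ∧ p.2 ∈ H)) with hoff
    -- size of off
    have hoffcard : (off.card : ℝ) ≤ 2 * θ * μ := by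
      have hsub : off ⊆ ((univ.filter fun i : Fin (m k) => ¬ (∑ l, w l * x l i ^ 2 ≤ C / θ)) ×ˢ univ)
          ∪ (univ ×ˢ (univ.filter fun j : Fin (n k) => ¬ (∑ l, w l * y l j ^ 2 ≤ C / θ))) := by
        intro p hp
        rw [hoff, Finset.mem_filter] at hp
        rw [Finset.mem_union, Finset.mem_product, Finset.mem_product, Finset.mem_filter,
          Finset.mem_filter]
        by_cases h1 : p.1 ∈ G
        · right
          refine ⟨Finset.mem_univ _, Finset.mem_univ _, fun h => hp.2 ⟨h1, ?_⟩⟩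
          rw [hH, Finset.mem_filter]; exact ⟨Finset.mem_univ _, h⟩
        · left
          refine ⟨⟨Finset.mem_univ _, fun h => h1 ?_⟩, Finset.mem_univ _⟩
          rw [hG, Finset.mem_filter]; exact ⟨Finset.mem_univ _, h⟩
      have h1 := (Finset.card_le_card hsub).trans (Finset.card_union_le _ _)
      rw [Finset.card_product, Finset.card_product, Finset.card_univ, Finset.card_univ,
        Fintype.card_fin, Fintype.card_fin] at h1
      have h2 : (off.card : ℝ) ≤
          ((univ.filter fun i : Fin (m k) => ¬ (∑ l, w l * x l i ^ 2 ≤ C / θ)).card : ℝ) * n k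
          + m k * ((univ.filter fun j : Fin (n k) => ¬ (∑ l, w l * y l j ^ 2 ≤ C / θ)).card : ℝ) := by
        exact_mod_cast h1
      have h3 := mul_le_mul_of_nonneg_right hrow hn'.le
      have h4 := mul_le_mul_of_nonneg_left hcol hm'.le
      rw [hμ]
      nlinarith
    have hAoff : ∑ p ∈ off, A k p.1 p.2 ^ 2 ≤ (q / 2) ^ 2 * μ := by
      calc ∑ p ∈ off, A k p.1 p.2 ^ 2 ≤ ∑ _p ∈ off, L1 ^ 2 := by
            refine Finset.sum_le_sum fun p _ => ?_
            rw [← sq_abs]
            exact pow_le_pow_left₀ (abs_nonneg _) (hA1 k _ _) 2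
        _ = off.card * L1 ^ 2 := by rw [Finset.sum_const, nsmul_eq_mul]
        _ ≤ 2 * θ * μ * L1 ^ 2 := mul_le_mul_of_nonneg_right hoffcard (by positivity)
        _ = (q / 2) ^ 2 * μ := by rw [hθ]; field_simp
    have hDblk : ∑ p ∈ blk, (B k p.1 p.2 - A k p.1 p.2) ^ 2 ≤ (q / 2) ^ 2 * μ := by
      have hB1 : ∀ p ∈ blk, |B k p.1 p.2| ≤ C / θ := by
        intro p hp
        rw [hblk, Finset.mem_filter, hG, hH, Finset.mem_filter, Finset.mem_filter] at hp
        rw [hBf.eq]
        have h1 : |∑ l, w l * x l p.1 * y l p.2|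
            ≤ ∑ l, w l * ((x l p.1 ^ 2 + y l p.2 ^ 2) / 2) := by
          refine (Finset.abs_sum_le_sum_abs _ _).trans (Finset.sum_le_sum fun l _ => ?_)
          rw [mul_assoc, abs_mul, abs_of_nonneg (hBf.nonneg l)]
          refine mul_le_mul_of_nonneg_left ?_ (hBf.nonneg l)
          rw [abs_le]
          constructor <;> nlinarith [sq_nonneg (x l p.1 - y l p.2), sq_nonneg (x l p.1 + y l p.2)]
        have h2 : ∑ l, w l * ((x l p.1 ^ 2 + y l p.2 ^ 2) / 2)
            = (∑ l, w l * x l p.1 ^ 2 + ∑ l, w l * y l p.2 ^ 2) / 2 := by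
          rw [← Finset.sum_add_distrib, Finset.sum_div]
          refine Finset.sum_congr rfl fun l _ => ?_
          ring
        rw [h2] at h1
        linarith [hp.2.1.2, hp.2.2.2]
      have h1 : ∀ p ∈ blk, (B k p.1 p.2 - A k p.1 p.2) ^ 2
          ≤ s ^ 2 + (if s < |B k p.1 p.2 - A k p.1 p.2| then D ^ 2 else 0) := by
        intro p hp
        split_ifs with h
        · have h2 : |B k p.1 p.2 - A k p.1 p.2| ≤ D := by
            refine (abs_sub _ _).trans ?_
            rw [hD]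
            exact add_le_add (hB1 p hp) (hA1 k _ _)
          have h3 := pow_le_pow_left₀ (abs_nonneg _) h2 2
          rw [sq_abs] at h3
          have : 0 ≤ s ^ 2 := sq_nonneg s
          linarith
        · push Not at h
          have h3 := pow_le_pow_left₀ (abs_nonneg _) h 2
          rw [sq_abs] at h3
          linarith
      calc ∑ p ∈ blk, (B k p.1 p.2 - A k p.1 p.2) ^ 2
          ≤ ∑ p ∈ blk, (s ^ 2 + (if s < |B k p.1 p.2 - A k p.1 p.2| then D ^ 2 else 0)) :=
            Finset.sum_le_sum h1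
        _ ≤ ∑ p : Fin (m k) × Fin (n k),
              (s ^ 2 + (if s < |B k p.1 p.2 - A k p.1 p.2| then D ^ 2 else 0)) :=
            Finset.sum_le_sum_of_subset_of_nonneg (Finset.subset_univ _) fun p _ _ => by
              split_ifs <;> positivity
        _ = μ * s ^ 2 + ((univ.filter fun p : Fin (m k) × Fin (n k) =>
              s < |B k p.1 p.2 - A k p.1 p.2|).card : ℝ) * D ^ 2 := by
            rw [Finset.sum_add_distrib, Finset.sum_const, nsmul_eq_mul, ← Finset.sum_filter,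
              Finset.sum_const, nsmul_eq_mul, Finset.card_univ, Fintype.card_prod,
              Fintype.card_fin, Fintype.card_fin, hμ]
            push_cast
            ring
        _ ≤ μ * s ^ 2 + 5 * θ' * μ * D ^ 2 := by
            have := mul_le_mul_of_nonneg_right hcount (sq_nonneg D)
            linarith
        _ = 2 * s ^ 2 * μ := by rw [hθ']; field_simp; ring
        _ ≤ (q / 2) ^ 2 * μ := by
            refine mul_le_mul_of_nonneg_right ?_ hμpos.le
            rw [hs]; nlinarith [sq_nonneg q]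
    have hpinch := pinch (A k) (B k) K (hA k).1 (hBA k) (nuc_nonneg _) G H t htpos
    rw [← hoff, ← hblk] at hpinch
    have e1 : Real.sqrt (∑ p ∈ off, A k p.1 p.2 ^ 2) ≤ q / 2 * Real.sqrt μ := by
      rw [Real.sqrt_le_left (by positivity), mul_pow, hsμ2]; exact hAoff
    have e2 : Real.sqrt (∑ p ∈ blk, (B k p.1 p.2 - A k p.1 p.2) ^ 2) ≤ q / 2 * Real.sqrt μ := by
      rw [Real.sqrt_le_left (by positivity), mul_pow, hsμ2]; exact hDblk
    have e3 : Real.sqrt (∑ p ∈ off, B k p.1 p.2 ^ 2) ≤ ε / 4 * Real.sqrt μ := by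
      have h1 : t / 2 * nuc (A k) ≤ ε / 8 * Real.sqrt μ := by
        calc t / 2 * nuc (A k) ≤ t / 2 * (C * Real.sqrt μ) :=
              mul_le_mul_of_nonneg_left (hnucA k) (by positivity)
          _ = (t / 2 * C) * Real.sqrt μ := by ring
          _ ≤ ε / 8 * Real.sqrt μ := by
              refine mul_le_mul_of_nonneg_right ?_ hsμ.le
              rw [ht]
              rw [div_div, div_mul_eq_mul_div, div_le_div_iff₀ (by positivity) (by norm_num)]
              nlinarith
      have h2 : Real.sqrt K / t * (Real.sqrt (∑ p ∈ blk, (B k p.1 p.2 - A k p.1 p.2) ^ 2)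
          + Real.sqrt (∑ p ∈ off, A k p.1 p.2 ^ 2)) ≤ ε / 8 * Real.sqrt μ := by
        calc _ ≤ Real.sqrt K / t * (q / 2 * Real.sqrt μ + q / 2 * Real.sqrt μ) :=
              mul_le_mul_of_nonneg_left (add_le_add e2 e1) (by positivity)
          _ = (Real.sqrt K / t * q) * Real.sqrt μ := by ring
          _ ≤ _ := mul_le_mul_of_nonneg_right hKq hsμ.le
      calc _ ≤ _ := hpinch
        _ ≤ ε / 8 * Real.sqrt μ + ε / 8 * Real.sqrt μ := add_le_add h1 h2
        _ = _ := by ring
    have e4 : ∑ p ∈ off, B k p.1 p.2 ^ 2 ≤ (ε / 4) ^ 2 * μ := by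
      rw [Real.sqrt_le_left (by positivity), mul_pow, hsμ2] at e3
      exact e3
    have htot : ∑ i, ∑ j, (B k - A k) i j ^ 2 ≤ (ε / 2) ^ 2 * μ := by
      have h1 : ∑ i, ∑ j, (B k - A k) i j ^ 2 = ∑ p ∈ blk, (B k p.1 p.2 - A k p.1 p.2) ^ 2
          + ∑ p ∈ off, (B k p.1 p.2 - A k p.1 p.2) ^ 2 := by
        rw [hblk, hoff, Finset.sum_filter_add_sum_filter_not, ← Finset.univ_product_univ,
          Finset.sum_product]
        rfl
      have h2 : ∑ p ∈ off, (B k p.1 p.2 - A k p.1 p.2) ^ 2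
          ≤ 2 * ∑ p ∈ off, B k p.1 p.2 ^ 2 + 2 * ∑ p ∈ off, A k p.1 p.2 ^ 2 := by
        rw [Finset.mul_sum, Finset.mul_sum, ← Finset.sum_add_distrib]
        refine Finset.sum_le_sum fun p _ => ?_
        nlinarith [sq_nonneg (B k p.1 p.2 + A k p.1 p.2)]
      have h3 : (q / 2) ^ 2 ≤ (ε / 16) ^ 2 := pow_le_pow_left₀ (by positivity) (by linarith) 2
      have h4 := mul_le_mul_of_nonneg_right h3 hμpos.le
      rw [h1]
      have h5 : 0 ≤ ε ^ 2 * μ := by positivity
      nlinarith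
    rw [Real.dist_eq, sub_zero, abs_of_nonneg (fbar_nonneg _)]
    unfold fbar
    have h6 : Real.sqrt ((∑ i, ∑ j, (B k - A k) i j ^ 2) / ((m k : ℝ) * n k)) ≤ ε / 2 := by
      rw [Real.sqrt_le_left (by positivity), div_le_iff₀ (by positivity)]
      exact htot
    linarith
  obtain ⟨N, hN⟩ := Filter.eventually_atTop.1 hfin
  exact ⟨N, fun k hk => hN k hk.le⟩

end Pool.Agent.Q204.NNM
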